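import Mathlib

/-!
An abstract group-theoretic lemma: if `T` displaces the subgroup `A`, then for every `w` in the
commutator subgroup of `A`, the element `T * T` is a product of two conjugates of `T * w`.
-/

open scoped commutatorElement

namespace Pool.Agent.P.MP_23b8d1_al

section
variable {Γ : Type*} [Group Γ]

/-- The invariant used in the displacement lemma. -/
def Inv2 (T : Γ) (B : Subgroup Γ) (x y : Γ) : Prop :=
  ∃ r ∈ B, ∃ h ∈ B, ∃ k ∈ B, T * r = h * (T * x) * h⁻¹ ∧ T * r⁻¹ = k * (T * y) * k⁻¹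

theorem Inv2.symm {T : Γ} {B : Subgroup Γ} {x y : Γ} (h : Inv2 T B x y) : Inv2 T B y x := by
  obtain ⟨r, hr, h, hh, k, hk, e1, e2⟩ := h
  exact ⟨r⁻¹, B.inv_mem hr, k, hk, h, hh, e2, by simpa using e1⟩

theorem inv2_one (T : Γ) (B : Subgroup Γ) : Inv2 T B 1 1 :=
  ⟨1, B.one_mem, 1, B.one_mem, 1, B.one_mem, by simp, by simp⟩

theorem inv2_aux {T r h x d : Γ} (e1 : T * r = h * (T * x) * h⁻¹)
    (hc : Commute (T⁻¹ * h * T) d) :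
    T * (T⁻¹ * r * T * d) = (T⁻¹ * h * T * x) * (T * (d * x)) * (T⁻¹ * h * T * x)⁻¹ := by
  have hr : r = T⁻¹ * (h * (T * x) * h⁻¹) := by rw [← e1]; group
  have hc' : (T⁻¹ * h * T)⁻¹ * d = d * (T⁻¹ * h * T)⁻¹ := (hc.inv_left).eq
  calc T * (T⁻¹ * r * T * d) = (T⁻¹ * h * T) * x * T * ((T⁻¹ * h * T)⁻¹ * d) := by
        rw [hr]; group
    _ = (T⁻¹ * h * T) * x * T * (d * (T⁻¹ * h * T)⁻¹) := by rw [hc']
    _ = _ := by group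

theorem Inv2.step {T : Γ} {A B : Subgroup Γ} (hAB : A ≤ B)
    (hB : ∀ b ∈ B, T⁻¹ * b * T ∈ B) (hc : ∀ b ∈ B, ∀ a ∈ A, Commute (T⁻¹ * b * T) a)
    {x y d : Γ} (hx : x ∈ A) (hy : y ∈ A) (hd : d ∈ A) (h : Inv2 T B x y) :
    Inv2 T B (d * x) (d⁻¹ * y) := by
  obtain ⟨r, hr, h, hh, k, hk, e1, e2⟩ := h
  refine ⟨T⁻¹ * r * T * d, B.mul_mem (hB r hr) (hAB hd), T⁻¹ * h * T * x,
    B.mul_mem (hB h hh) (hAB hx), T⁻¹ * k * T * y, B.mul_mem (hB k hk) (hAB hy),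
    inv2_aux e1 (hc h hh d hd), ?_⟩
  have h1 : (T⁻¹ * r * T * d)⁻¹ = T⁻¹ * r⁻¹ * T * d⁻¹ := by
    have := (hc r hr d hd).eq
    rw [this]; group
  rw [h1]
  exact inv2_aux e2 (hc k hk d⁻¹ (A.inv_mem hd))

theorem Inv2.comm_step {T : Γ} {A B : Subgroup Γ} (hAB : A ≤ B)
    (hB : ∀ b ∈ B, T⁻¹ * b * T ∈ B) (hc : ∀ b ∈ B, ∀ a ∈ A, Commute (T⁻¹ * b * T) a)
    {x y a b : Γ} (hx : x ∈ A) (hy : y ∈ A) (ha : a ∈ A) (hb : b ∈ A) (h : Inv2 T B x y) :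
    Inv2 T B x (⁅a, b⁆ * y) := by
  have hba : b * a ∈ A := A.mul_mem hb ha
  have h1 := h.step hAB hB hc hx hy hba
  have h2 := h1.step hAB hB hc (A.mul_mem hba hx) (A.mul_mem (A.inv_mem hba) hy) (A.inv_mem hb)
  have h3 := h2.step hAB hB hc (A.mul_mem (A.inv_mem hb) (A.mul_mem hba hx))
    (A.mul_mem (A.inv_mem (A.inv_mem hb)) (A.mul_mem (A.inv_mem hba) hy)) (A.inv_mem ha)
  have e1 : a⁻¹ * (b⁻¹ * (b * a * x)) = x := by group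
  have e2 : a⁻¹⁻¹ * (b⁻¹⁻¹ * ((b * a)⁻¹ * y)) = ⁅a, b⁆ * y := by
    rw [commutatorElement_def]; group
  rwa [e1, e2] at h3

theorem Inv2.comm {T : Γ} {A B : Subgroup Γ} (hAB : A ≤ B)
    (hB : ∀ b ∈ B, T⁻¹ * b * T ∈ B) (hc : ∀ b ∈ B, ∀ a ∈ A, Commute (T⁻¹ * b * T) a)
    {w : Γ} (hw : w ∈ ⁅A, A⁆) :
    w ∈ A ∧ ∀ x ∈ A, ∀ y ∈ A, (Inv2 T B x y ↔ Inv2 T B x (w * y)) := by
  rw [Subgroup.commutator_def] at hw
  induction hw using Subgroup.closure_induction with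
  | mem w hw =>
    obtain ⟨a, ha, b, hb, rfl⟩ := hw
    have hab : ⁅a, b⁆ ∈ A := by
      rw [commutatorElement_def]
      exact A.mul_mem (A.mul_mem (A.mul_mem ha hb) (A.inv_mem ha)) (A.inv_mem hb)
    refine ⟨hab, fun x hx y hy => ⟨fun h => h.comm_step hAB hB hc hx hy ha hb, fun h => ?_⟩⟩
    have := h.comm_step hAB hB hc hx (A.mul_mem hab hy) hb ha
    have e : ⁅b, a⁆ * (⁅a, b⁆ * y) = y := by
      rw [commutatorElement_def, commutatorElement_def]; group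
    rwa [e] at this
  | one => exact ⟨A.one_mem, fun x _ y _ => by simp⟩
  | mul u v _ _ hu hv =>
    refine ⟨A.mul_mem hu.1 hv.1, fun x hx y hy => ?_⟩
    rw [hv.2 x hx y hy, hu.2 x hx _ (A.mul_mem hv.1 hy), mul_assoc]
  | inv u _ hu =>
    refine ⟨A.inv_mem hu.1, fun x hx y hy => ?_⟩
    rw [hu.2 x hx _ (A.mul_mem (A.inv_mem hu.1) hy)]
    simp

/-- Displacement lemma. -/
theorem sq_eq_mul_conj {T : Γ} {A B : Subgroup Γ} (hAB : A ≤ B)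
    (hB : ∀ b ∈ B, T⁻¹ * b * T ∈ B) (hc : ∀ b ∈ B, ∀ a ∈ A, Commute (T⁻¹ * b * T) a)
    {w : Γ} (hw : w ∈ ⁅A, A⁆) :
    ∃ h ∈ B, ∃ k ∈ B, T * T = (k * (T * w) * k⁻¹) * (T⁻¹ * (h * (T * w) * h⁻¹) * T) := by
  obtain ⟨hwA, hw2⟩ := Inv2.comm hAB hB hc hw
  have h1 : Inv2 T B 1 w := by
    simpa using (hw2 1 A.one_mem 1 A.one_mem).1 (inv2_one T B)
  have h2 : Inv2 T B w w := by
    simpa using (hw2 w hwA 1 A.one_mem).1 h1.symm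
  obtain ⟨r, -, h, hh, k, hk, e1, e2⟩ := h2
  refine ⟨h, hh, k, hk, ?_⟩
  rw [← e1, ← e2]; group

end

end Pool.Agent.P.MP_23b8d1_al
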