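import Pool.Agent.P.MP_23b8d1_al.Groups
import Pool.Agent.P.MP_23b8d1_al.Abstract

/-!
Every normal subsemigroup of `DD` that omits the identity lies in one of four positive cones of
bi-invariant linear orders.
-/

open scoped commutatorElement

namespace Pool.Agent.P.MP_23b8d1_al

/-- Maps that move points to the right at the left end of their support. -/
def Lpos : Set H :=
  {f | ∃ a c, a < c ∧ (∀ x, x ≤ a → f x = x) ∧ ∀ x, a < x → x ≤ c → x < f x}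

theorem Lpos_mul {f g : H} (hf : f ∈ Lpos) (hg : g ∈ Lpos) : f * g ∈ Lpos := by
  obtain ⟨a, c, hac, f1, f2⟩ := hf
  obtain ⟨b, d, hbd, g1, g2⟩ := hg
  have f3 : ∀ x, x ≤ c → x ≤ f x := fun x hx => by
    rcases le_or_gt x a with h | h
    · exact (f1 x h).ge
    · exact (f2 x h hx).le
  have g3 : ∀ x, x ≤ d → x ≤ g x := fun x hx => by
    rcases le_or_gt x b with h | h
    · exact (g1 x h).ge
    · exact (g2 x h hx).le
  refine ⟨min a b, min c d, lt_min ((min_le_left _ _).trans_lt hac)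
    ((min_le_right _ _).trans_lt hbd), fun x hx => ?_, fun x hx hx' => ?_⟩
  · rw [H.mul_apply, g1 x (hx.trans (min_le_right _ _)), f1 x (hx.trans (min_le_left _ _))]
  · have hxc := hx'.trans (min_le_left _ _)
    have hxd := hx'.trans (min_le_right _ _)
    rw [H.mul_apply]
    rcases min_lt_iff.1 hx with h | h
    · exact (f2 x h hxc).trans_le ((H.le f).2 (g3 x hxd))
    · exact (f3 x hxc).trans_lt ((H.lt f).2 (g2 x h hxd))

theorem Lpos_conj {f : H} (hf : f ∈ Lpos) (h : H) : h * f * h⁻¹ ∈ Lpos := by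
  obtain ⟨a, c, hac, f1, f2⟩ := hf
  refine ⟨h a, h c, (H.lt h).2 hac, fun x hx => ?_, fun x hx hx' => ?_⟩
  · rw [H.mul_apply, H.mul_apply, f1 _ ((H.inv_le h).2 hx), H.apply_inv]
  · rw [H.mul_apply, H.mul_apply, ← H.inv_lt]
    exact f2 _ ((H.lt_inv h).2 hx) ((H.inv_le h).2 hx')

theorem one_not_mem_Lpos : (1 : H) ∉ Lpos := by
  rintro ⟨a, c, hac, -, f2⟩
  exact lt_irrefl _ (f2 c hac le_rfl)

theorem Lpos_total {f : H} (hf : f ∈ GG) (hne : f ≠ 1) : f ∈ Lpos ∨ f⁻¹ ∈ Lpos := by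
  obtain ⟨M, hM, hfM⟩ := hf
  let S : Set ℝ := {x | f x ≠ x}
  have hS : S.Nonempty := by
    by_contra h
    apply hne
    refine H.ext fun x => ?_
    by_contra hx
    exact h ⟨x, hx⟩
  have hb : BddBelow S := ⟨-M, fun x hx => by
    by_contra h
    exact hx (hfM.2.1 x (le_of_lt (not_le.1 h)))⟩
  set a := sInf S with ha
  have h1 : ∀ x, x < a → f x = x := fun x hx => by
    by_contra h
    exact absurd (csInf_le hb (show x ∈ S from h)) (not_le.2 hx)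
  have h2 : f a = a := by
    rcases lt_trichotomy (f a) a with h | h | h
    · exact H.inj f (h1 _ h)
    · exact h
    · have h3 := h1 _ ((H.inv_lt f).2 h)
      rw [H.apply_inv] at h3
      have := H.apply_inv f a
      rwa [← h3] at this
  have h3 : ∀ x, x ≤ a → f x = x := fun x hx => by
    rcases hx.eq_or_lt with rfl | hx
    · exact h2
    · exact h1 x hx
  obtain ⟨k, c, hac, hc⟩ := PL.rg hfM.1 a
  rw [h2] at hc
  rcases lt_trichotomy k 0 with hk | hk | hk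
  · right
    have hlt : (2 : ℝ) ^ k < 1 := zpow_lt_one_of_neg₀ (by norm_num) hk
    refine ⟨a, c, hac, fun x hx => H.inv_eq f (h3 x hx), fun x hx hx' => ?_⟩
    rw [H.lt_inv, hc x hx.le hx']
    have : 0 < x - a := sub_pos.2 hx
    nlinarith
  · exfalso
    have : c ≤ a := le_csInf hS fun x hx => by
      by_contra h
      apply hx
      rcases le_total x a with h' | h'
      · exact h3 x h'
      · rw [hc x h' (le_of_lt (not_le.1 h)), hk]; simp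
    exact absurd this (not_le.2 hac)
  · left
    have hlt : (1 : ℝ) < 2 ^ k := one_lt_zpow₀ (by norm_num) hk
    refine ⟨a, c, hac, h3, fun x hx hx' => ?_⟩
    rw [hc x hx.le hx']
    have : 0 < x - a := sub_pos.2 hx
    nlinarith

/-- A subsemigroup of `DD` that is invariant under conjugation by piecewise linear maps. -/
structure Nor (P : Set H) : Prop where
  sub : ∀ f ∈ P, f ∈ DD
  mul : ∀ f ∈ P, ∀ g ∈ P, f * g ∈ P
  conj : ∀ f ∈ P, ∀ h ∈ PL, h * f * h⁻¹ ∈ P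

theorem Nor.pl {P : Set H} (hP : Nor P) {f : H} (hf : f ∈ P) : f ∈ PL :=
  GG.pl (DD_le_GG (hP.sub f hf))

theorem Nor.pow {P : Set H} (hP : Nor P) {f : H} (hf : f ∈ P) (n : ℕ) : f ^ (n + 1) ∈ P := by
  induction n with
  | zero => simpa using hf
  | succ n ih => rw [pow_succ]; exact hP.mul _ ih _ hf

theorem Nor.inv {P : Set H} (hP : Nor P) : Nor {f | f⁻¹ ∈ P} where
  sub f hf := by simpa using DD.inv_mem (hP.sub _ hf)
  mul f hf g hg := by
    change (f * g)⁻¹ ∈ P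
    rw [mul_inv_rev]; exact hP.mul _ hg _ hf
  conj f hf h hh := by
    change (h * f * h⁻¹)⁻¹ ∈ P
    have e : (h * f * h⁻¹)⁻¹ = h * f⁻¹ * h⁻¹ := by group
    rw [e]; exact hP.conj _ hf h hh

theorem Nor.ρ {P : Set H} (hP : Nor P) : Nor {f | ρ f ∈ P} where
  sub f hf := by
    have := DD.ρ_mem (hP.sub _ hf)
    rwa [ρ_ρ] at this
  mul f hf g hg := by
    change Pool.Agent.P.MP_23b8d1_al.ρ (f * g) ∈ P
    rw [map_mul]; exact hP.mul _ hf _ hg
  conj f hf h hh := by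
    change Pool.Agent.P.MP_23b8d1_al.ρ (h * f * h⁻¹) ∈ P
    rw [map_mul, map_mul, map_inv]; exact hP.conj _ hf _ (PL.ρ_mem hh)

theorem Nor.normL {P : Set H} (hP : Nor P) {f : H} (hf : f ∈ P) (hf' : f ∈ Lpos) :
    ∃ g ∈ P, ∃ n : ℕ, (∀ x, x ≤ 0 → g x = x) ∧ RG g 0 (n + 1) := by
  obtain ⟨a, c, hac, f1, f2⟩ := hf'
  obtain ⟨τ, hτ, t1⟩ := exists_transl (-a)
  have hτa : τ a = 0 := by rw [t1]; ring
  have hg := hP.conj f hf τ hτ
  set g := τ * f * τ⁻¹ with hgdef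
  have g1 : ∀ x, x ≤ 0 → g x = x := fun x hx => by
    rw [hgdef, H.mul_apply, H.mul_apply, f1 _ ((H.inv_le τ).2 (hτa ▸ hx)), H.apply_inv]
  have g2 : ∀ x, 0 < x → x ≤ τ c → x < g x := fun x hx hx' => by
    rw [hgdef, H.mul_apply, H.mul_apply, ← H.inv_lt]
    exact f2 _ ((H.lt_inv τ).2 (hτa ▸ hx)) ((H.inv_le τ).2 hx')
  have hc0 : 0 < τ c := hτa ▸ (H.lt τ).2 hac
  obtain ⟨k, hk⟩ := PL.rg (hP.pl hg) 0
  have hkpos : 0 < k := by
    obtain ⟨d, hd, hk⟩ := hk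
    by_contra hneg
    have hle : (2 : ℝ) ^ k ≤ 1 := zpow_le_one_of_nonpos₀ (by norm_num) (not_lt.1 hneg)
    have hm : 0 < min d (τ c) := lt_min hd hc0
    have h1 := g2 _ hm (min_le_right _ _)
    rw [hk _ hm.le (min_le_left _ _), g1 0 le_rfl] at h1
    nlinarith
  obtain ⟨n, hn⟩ : ∃ n : ℕ, k = n + 1 := ⟨(k - 1).toNat, by omega⟩
  exact ⟨g, hg, n, g1, hn ▸ hk⟩

theorem matchL {P Q : Set H} (hP : Nor P) (hQ : Nor Q) {f g : H} (hf : f ∈ P) (hf' : f ∈ Lpos)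
    (hg : g ∈ Q) (hg' : g ∈ Lpos) :
    ∃ F ∈ P, ∃ G ∈ Q, ∃ y c, y < c ∧ (∀ x, x ≤ c → F x = G x) ∧ y < F y ∧ c < F c := by
  obtain ⟨f, hf, m, f1, f2⟩ := hP.normL hf hf'
  obtain ⟨g, hg, n, g1, g2⟩ := hQ.normL hg hg'
  have f3 : ∀ x, x ≤ 0 → (f ^ (n + 1)) x = x := (Fix (Set.Iic 0)).pow_mem (x := f) f1 (n + 1)
  have g3 : ∀ x, x ≤ 0 → (g ^ (m + 1)) x = x := (Fix (Set.Iic 0)).pow_mem (x := g) g1 (m + 1)
  obtain ⟨c, hc, f4⟩ := f2.pow (f1 0 le_rfl) (n + 1)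
  obtain ⟨d, hd, g4⟩ := g2.pow (g1 0 le_rfl) (m + 1)
  rw [f3 0 le_rfl] at f4
  rw [g3 0 le_rfl] at g4
  have hm : 0 < min c d := lt_min hc hd
  have hlt : (1 : ℝ) < 2 ^ (((n + 1 : ℕ) : ℤ) * ((m : ℤ) + 1)) :=
    one_lt_zpow₀ (by norm_num) (by positivity)
  have hpos : ∀ x, 0 < x → x ≤ min c d → x < (f ^ (n + 1)) x := fun x hx hx' => by
    rw [f4 x hx.le (hx'.trans (min_le_left _ _))]
    nlinarith
  refine ⟨f ^ (n + 1), hP.pow hf n, g ^ (m + 1), hQ.pow hg m, min c d / 2, min c d, by linarith,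
    fun x hx => ?_, hpos _ (by linarith) (by linarith), hpos _ hm le_rfl⟩
  rcases le_total x 0 with h | h
  · rw [f3 x h, g3 x h]
  · rw [f4 x h (hx.trans (min_le_left _ _)), g4 x h (hx.trans (min_le_right _ _))]
    have e : ((n + 1 : ℕ) : ℤ) * ((m : ℤ) + 1) = ((m + 1 : ℕ) : ℤ) * ((n : ℤ) + 1) := by
      push_cast; ring
    rw [e]

theorem matchR {P Q : Set H} (hP : Nor P) (hQ : Nor Q) {f g : H} (hf : f ∈ P)
    (hf' : ρ f⁻¹ ∈ Lpos) (hg : g ∈ Q) (hg' : ρ g⁻¹ ∈ Lpos) :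
    ∃ F ∈ P, ∃ G ∈ Q, ∃ d, (∀ x, d ≤ x → F x = G x) ∧ d < F d := by
  obtain ⟨F, hF, G, hG, y, c, -, h1, -, h2⟩ := matchL hP.inv.ρ hQ.inv.ρ (f := ρ f⁻¹) (g := ρ g⁻¹)
    (by change (ρ (ρ f⁻¹))⁻¹ ∈ P; rw [ρ_ρ, inv_inv]; exact hf) hf'
    (by change (ρ (ρ g⁻¹))⁻¹ ∈ Q; rw [ρ_ρ, inv_inv]; exact hg) hg'
  refine ⟨(ρ F)⁻¹, hF, (ρ G)⁻¹, hG, -F c, fun x hx => ?_, ?_⟩
  · have h3 : -c ≤ (ρ F)⁻¹ x := by
      rw [H.le_inv, ρ_apply, neg_neg]; exact hx
    symm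
    apply H.inv_eq
    rw [ρ_apply, ← h1 _ (by linarith), ← ρ_apply, H.apply_inv]
  · have : (ρ F)⁻¹ (-F c) = -c := H.inv_eq _ (by rw [ρ_apply, neg_neg])
    rw [this]; linarith

/-- Key theorem: two normal subsemigroups that both contain an element positive at the left end
and an element positive at the right end intersect. -/
theorem key {P Q : Set H} (hP : Nor P) (hQ : Nor Q) {f g f' g' : H} (hf : f ∈ P) (hfL : f ∈ Lpos)
    (hg : g ∈ Q) (hgL : g ∈ Lpos) (hf' : f' ∈ P) (hfR : ρ f'⁻¹ ∈ Lpos) (hg' : g' ∈ Q)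
    (hgR : ρ g'⁻¹ ∈ Lpos) : ∃ u, u ∈ P ∧ u ∈ Q := by
  obtain ⟨F1, hF1, G1, hG1, y, c, hyc, a1, a2, -⟩ := matchL hP hQ hf hfL hg hgL
  obtain ⟨F2, hF2, G2, hG2, d, b1, b2⟩ := matchR hP hQ hf' hfR hg' hgR
  obtain ⟨M1, hM1, s1⟩ := GG.supp (DD_le_GG (hP.sub _ hF1)) (F1 y)
  obtain ⟨M2, hM2, s2⟩ := DD_le_GG (hQ.sub _ hG1)
  obtain ⟨N1, hN1, t1⟩ := GG.supp (DD_le_GG (hP.sub _ hF2)) d
  obtain ⟨N2, hN2, t2⟩ := DD_le_GG (hQ.sub _ hG2)
  have hM1' := abs_nonneg (F1 y)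
  have hN1' := abs_nonneg d
  have hM1'' := le_abs_self (F1 y)
  have hN1'' := neg_abs_le d
  have s1' : F1 ∈ Supp (-(M1 + M2)) (M1 + M2) := Supp_mono (by linarith) (by linarith) s1
  have s2' : G1 ∈ Supp (-(M1 + M2)) (M1 + M2) := Supp_mono (by linarith) (by linarith) s2
  have t1' : F2 ∈ Supp (-(N1 + N2)) (N1 + N2) := Supp_mono (by linarith) (by linarith) t1
  have t2' : G2 ∈ Supp (-(N1 + N2)) (N1 + N2) := Supp_mono (by linarith) (by linarith) t2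
  set M := M1 + M2 with hM
  set N := N1 + N2 with hN
  set e := -N - 1 with he
  set e' := (d + F2 d) / 2 with he'
  obtain ⟨h, hh, h1, h2, h3⟩ := exists_three (p := y) (q := F1 y) (r := M) (p' := e) (q' := e')
    (r' := F2 d) a2 (by linarith) (by linarith) (by linarith)
  have s3 := Supp_conj s1' hh
  have s4 := Supp_conj s2' hh
  rw [h3] at s3 s4
  set f3 := h * F1 * h⁻¹ with hf3
  set g3 := h * G1 * h⁻¹ with hg3
  have hT : f3 * F2 ∈ P := hP.mul _ (hP.conj _ hF1 h hh) _ hF2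
  have hU : g3 * G2 ∈ Q := hQ.mul _ (hQ.conj _ hG1 h hh) _ hG2
  set T := f3 * F2 with hTdef
  set U := g3 * G2 with hUdef
  have hec : e < h c := h1 ▸ (H.lt h).2 hyc
  set p := min (h c) (-N) with hp
  have hep : e < p := lt_min hec (by linarith)
  have hpN : p ≤ -N := min_le_right _ _
  have hpc : p ≤ h c := min_le_left _ _
  have c1 : ∀ x, x ≤ p → T x = U x := fun x hx => by
    rw [hTdef, hUdef, H.mul_apply, H.mul_apply g3, t1'.2.1 x (hx.trans hpN),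
      t2'.2.1 x (hx.trans hpN), hf3, hg3]
    simp only [H.mul_apply]
    rw [a1 _ ((H.inv_le h).2 (hx.trans hpc))]
  have c2 : ∀ x, d ≤ x → T x = U x := fun x hx => by
    have : F2 d ≤ F2 x := (H.le F2).2 hx
    rw [hTdef, hUdef, H.mul_apply, H.mul_apply g3, ← b1 x hx, s3.2.2 _ this, s4.2.2 _ this]
  have c3 : T e = e' := by
    rw [hTdef, H.mul_apply, t1'.2.1 e (show e ≤ -N by linarith), hf3, H.mul_apply, H.mul_apply,
      H.inv_eq h h1, h2]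
  have hTPL : T ∈ PL := hP.pl hT
  have hw : T⁻¹ * U ∈ DD := DD.mul_mem (DD.inv_mem (hP.sub _ hT)) (hQ.sub _ hU)
  have hwS : T⁻¹ * U ∈ Supp p d := ⟨GG.pl (DD_le_GG hw),
    fun x hx => by rw [H.mul_apply, ← c1 x hx, H.inv_apply],
    fun x hx => by rw [H.mul_apply, ← c2 x hx, H.inv_apply]⟩
  have hwA := DD_mem_comm_Supp hw (a := e) (b := e') hep (by linarith) (by linarith) hwS
  have hfix : ∀ b ∈ PL ⊓ Fix (Set.Ici e'), ∀ x, e ≤ x → (T⁻¹ * b * T) x = x := fun b hb x hx => by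
    have : e' ≤ T x := c3 ▸ (H.le T).2 hx
    rw [H.mul_apply, H.mul_apply, hb.2 _ this, H.inv_apply]
  obtain ⟨k1, hk1, k2, hk2, e1⟩ := sq_eq_mul_conj (T := T) (A := Supp e e')
    (B := PL ⊓ Fix (Set.Ici e')) (fun a ha => ⟨ha.1, ha.2.2⟩)
    (fun b hb => ⟨PL.mul_mem (PL.mul_mem (PL.inv_mem hTPL) hb.1) hTPL,
      fun x hx => hfix b hb x (le_trans (by linarith) (show e' ≤ x from hx))⟩)
    (fun b hb a ha => H.commute_of_disjoint fun x => by
      rcases le_total e x with hx | hx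
      · exact Or.inl (hfix b hb x hx)
      · exact Or.inr (ha.2.1 x hx)) hwA
  refine ⟨T * T, hP.mul _ hT _ hT, ?_⟩
  have e2 : T * (T⁻¹ * U) = U := by group
  rw [e1, e2]
  refine hQ.mul _ (hQ.conj _ hU _ hk2.1) _ ?_
  have := hQ.conj _ (hQ.conj _ hU _ hk1.1) _ (PL.inv_mem hTPL)
  rwa [inv_inv] at this

/-- The positive cone of a bi-invariant linear order on `DD`. -/
structure IsCone (C : Set H) : Prop where
  mul : ∀ f ∈ C, ∀ g ∈ C, f * g ∈ C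
  conj : ∀ f ∈ C, ∀ h, h * f * h⁻¹ ∈ C
  one : 1 ∉ C
  total : ∀ f ∈ GG, f ≠ 1 → f ∈ C ∨ f⁻¹ ∈ C

theorem isCone_Lpos : IsCone Lpos :=
  ⟨fun _ hf _ hg => Lpos_mul hf hg, fun _ hf h => Lpos_conj hf h, one_not_mem_Lpos,
    fun _ hf hne => Lpos_total hf hne⟩

theorem IsCone.inv {C : Set H} (hC : IsCone C) : IsCone {f | f⁻¹ ∈ C} where
  mul f hf g hg := by
    change (f * g)⁻¹ ∈ C
    rw [mul_inv_rev]; exact hC.mul _ hg _ hf
  conj f hf h := by
    change (h * f * h⁻¹)⁻¹ ∈ C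
    have e : (h * f * h⁻¹)⁻¹ = h * f⁻¹ * h⁻¹ := by group
    rw [e]; exact hC.conj _ hf h
  one := by simpa using hC.one
  total f hf hne := by simpa [or_comm] using hC.total f hf hne

theorem IsCone.ρ {C : Set H} (hC : IsCone C) : IsCone {f | ρ f ∈ C} where
  mul f hf g hg := by
    change Pool.Agent.P.MP_23b8d1_al.ρ (f * g) ∈ C
    rw [map_mul]; exact hC.mul _ hf _ hg
  conj f hf h := by
    change Pool.Agent.P.MP_23b8d1_al.ρ (h * f * h⁻¹) ∈ C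
    rw [map_mul, map_mul, map_inv]; exact hC.conj _ hf _
  one := by simpa using hC.one
  total f hf hne := by
    have h1 : Pool.Agent.P.MP_23b8d1_al.ρ f ≠ 1 := fun h => hne (by
      rw [← ρ_ρ f, h, map_one])
    have := hC.total _ (GG.ρ_mem hf) h1
    rwa [← map_inv] at this

theorem exists_cone {P : Set H} (hP : Nor P) (h1 : (1 : H) ∉ P) :
    ∃ C : Set H, IsCone C ∧ P ⊆ C := by
  by_contra hcon
  have hex : ∀ C : Set H, IsCone C → ∃ f ∈ P, f⁻¹ ∈ C := fun C hC => by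
    by_contra h
    apply hcon
    refine ⟨C, hC, fun f hf => ?_⟩
    rcases hC.total f (DD_le_GG (hP.sub f hf)) (fun e => h1 (e ▸ hf)) with h' | h'
    · exact h'
    · exact absurd ⟨f, hf, h'⟩ h
  obtain ⟨f, hf, hfL⟩ := hex _ isCone_Lpos.inv
  obtain ⟨g, hg, hgL⟩ := hex _ isCone_Lpos
  obtain ⟨f', hf', hfR⟩ := hex _ isCone_Lpos.ρ
  obtain ⟨g', hg', hgR⟩ := hex _ isCone_Lpos.ρ.inv
  obtain ⟨u, hu, hu'⟩ := key hP hP.inv (f := f) (g := g⁻¹) (f' := f') (g' := g'⁻¹) hf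
    (by simpa using hfL) (by simpa using hg) hgL hf' hfR (by simpa using hg') hgR
  have := hP.mul _ hu _ hu'
  rw [mul_inv_cancel] at this
  exact h1 this

end Pool.Agent.P.MP_23b8d1_al
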