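import Pool.Agent.P.MP_23b8d1_al.Cones
import Pool.Prelude.Def_F_6038d89f

/-!
Any group isomorphic to `DD` is pro-orderable.
-/

namespace Pool.Agent.P.MP_23b8d1_al

theorem proOrderable_of_equiv {Γ : Type*} [Group Γ] (e : Γ ≃* DD) :
    N5f09da3c.ProOrderable Γ := by
  intro r hr hinv
  let φ : Γ →* H := DD.subtype.comp e.toMonoidHom
  have hφ : Function.Injective φ := DD.subtype_injective.comp e.injective
  have hφD : ∀ g, φ g ∈ DD := fun g => (e g).2
  have hφs : ∀ d ∈ DD, ∃ g, φ g = d := fun d hd => ⟨e.symm ⟨d, hd⟩, by simp [φ]⟩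
  let P : Set H := {f | ∃ g : Γ, r 1 g ∧ g ≠ 1 ∧ φ g = f}
  have hP : Nor P := by
    refine ⟨?_, ?_, ?_⟩
    · rintro _ ⟨g, -, -, rfl⟩
      exact hφD g
    · rintro _ ⟨g, hg, hg1, rfl⟩ _ ⟨g', hg', -, rfl⟩
      have h1 : r g (g * g') := by simpa using hinv.1 g _ _ hg'
      refine ⟨g * g', hr.trans _ _ _ hg h1, fun h => hg1 ?_, map_mul _ _ _⟩
      rw [h] at h1
      exact hr.antisymm _ _ h1 hg
    · rintro _ ⟨g, hg, hg1, rfl⟩ h hh
      obtain ⟨d, hd, e1⟩ := exists_DD_conj (DD_le_GG (hφD g)) hh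
      obtain ⟨k, rfl⟩ := hφs d hd
      refine ⟨k * g * k⁻¹, ?_, fun h => hg1 ?_, by rw [← e1, map_mul, map_mul, map_inv]⟩
      · simpa using hinv.2 k⁻¹ _ _ (hinv.1 k _ _ hg)
      · have : g = k⁻¹ * (k * g * k⁻¹) * k := by group
        rw [this, h]; group
  have h1 : (1 : H) ∉ P := by
    rintro ⟨g, -, hg1, hg⟩
    exact hg1 (hφ (by rw [hg, map_one]))
  obtain ⟨C, hC, hPC⟩ := exists_cone hP h1
  refine ⟨fun x y => x = y ∨ φ (x⁻¹ * y) ∈ C, ?_, ⟨?_, ?_⟩, ?_⟩
  · refine { refl := fun x => Or.inl rfl, trans := ?_, antisymm := ?_, total := ?_ }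
    · rintro x y z (rfl | hxy) hyz
      · exact hyz
      · rcases hyz with rfl | hyz
        · exact Or.inr hxy
        · right
          have := hC.mul _ hxy _ hyz
          rw [← map_mul] at this
          have e : x⁻¹ * y * (y⁻¹ * z) = x⁻¹ * z := by group
          rwa [e] at this
    · rintro x y (rfl | hxy) hyx
      · rfl
      · rcases hyx with rfl | hyx
        · rfl
        · exfalso
          have := hC.mul _ hxy _ hyx
          rw [← map_mul] at this
          have e : x⁻¹ * y * (y⁻¹ * x) = 1 := by group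
          rw [e, map_one] at this
          exact hC.one this
    · intro x y
      by_cases hxy : x = y
      · exact Or.inl (Or.inl hxy)
      · have hne : φ (x⁻¹ * y) ≠ 1 := fun h => hxy (by
          have : x⁻¹ * y = 1 := hφ (by rw [h, map_one])
          exact inv_mul_eq_one.1 this)
        rcases hC.total _ (DD_le_GG (hφD _)) hne with h | h
        · exact Or.inl (Or.inr h)
        · right; right
          rw [← map_inv] at h
          simpa using h
  · rintro g x y (rfl | hxy)
    · exact Or.inl rfl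
    · right
      have e : (g * x)⁻¹ * (g * y) = x⁻¹ * y := by group
      rwa [e]
  · rintro g x y (rfl | hxy)
    · exact Or.inl rfl
    · right
      have := hC.conj _ hxy (φ g⁻¹)
      rw [← map_inv, ← map_mul, ← map_mul] at this
      have e : (x * g)⁻¹ * (y * g) = g⁻¹ * (x⁻¹ * y) * g⁻¹⁻¹ := by group
      rwa [e]
  · intro x y hxy
    by_cases h : x = y
    · exact Or.inl h
    · right
      refine hPC ⟨x⁻¹ * y, by simpa using hinv.1 x⁻¹ _ _ hxy, fun h' => h ?_, rfl⟩
      exact inv_mul_eq_one.1 h'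

end Pool.Agent.P.MP_23b8d1_al
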