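import Pool.Agent.P.MP_23b8d1_al.PL

/-!
The group `GG` of compactly supported piecewise linear maps and its commutator subgroup `DD`,
which is simple.
-/

open scoped commutatorElement

namespace Pool.Agent.P.MP_23b8d1_al

/-- The maps fixing every point of a set. -/
def Fix (s : Set ℝ) : Subgroup H where
  carrier := {f | ∀ x ∈ s, f x = x}
  mul_mem' {f g} hf hg x hx := by rw [H.mul_apply, hg x hx, hf x hx]
  one_mem' _ _ := rfl
  inv_mem' {f} hf x hx := H.inv_eq f (hf x hx)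

theorem mem_Fix {s : Set ℝ} {f : H} : f ∈ Fix s ↔ ∀ x ∈ s, f x = x := Iff.rfl

/-- Piecewise linear maps supported in the interval from `a` to `b`. -/
noncomputable def Supp (a b : ℝ) : Subgroup H := PL ⊓ (Fix (Set.Iic a) ⊓ Fix (Set.Ici b))

theorem mem_Supp {a b : ℝ} {f : H} :
    f ∈ Supp a b ↔ f ∈ PL ∧ (∀ x, x ≤ a → f x = x) ∧ (∀ x, b ≤ x → f x = x) := Iff.rfl

theorem Supp_mono {a b a' b' : ℝ} (ha : a' ≤ a) (hb : b ≤ b') : Supp a b ≤ Supp a' b' :=
  fun _ hf => ⟨hf.1, fun x hx => hf.2.1 x (le_trans hx ha), fun x hx => hf.2.2 x (le_trans hb hx)⟩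

theorem Supp_conj {a b : ℝ} {f h : H} (hf : f ∈ Supp a b) (hh : h ∈ PL) :
    h * f * h⁻¹ ∈ Supp (h a) (h b) := by
  refine ⟨PL.mul_mem (PL.mul_mem hh hf.1) (PL.inv_mem hh), fun x hx => ?_, fun x hx => ?_⟩
  · rw [H.mul_apply, H.mul_apply, hf.2.1 _ ((H.inv_le h).2 hx), H.apply_inv]
  · rw [H.mul_apply, H.mul_apply, hf.2.2 _ ((H.le_inv h).2 hx), H.apply_inv]

/-- Compactly supported piecewise linear maps. -/
noncomputable def GG : Subgroup H where
  carrier := {f | ∃ M : ℝ, 0 < M ∧ f ∈ Supp (-M) M}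
  mul_mem' := by
    rintro f g ⟨M, hM, hf⟩ ⟨N, hN, hg⟩
    exact ⟨M + N, by linarith, (Supp _ _).mul_mem (Supp_mono (by linarith) (by linarith) hf)
      (Supp_mono (by linarith) (by linarith) hg)⟩
  one_mem' := ⟨1, one_pos, (Supp _ _).one_mem⟩
  inv_mem' := by
    rintro f ⟨M, hM, hf⟩
    exact ⟨M, hM, (Supp _ _).inv_mem hf⟩

theorem mem_GG_of_Supp {a b : ℝ} {f : H} (hf : f ∈ Supp a b) : f ∈ GG :=
  ⟨|a| + |b| + 1, by positivity, Supp_mono
    (by have := neg_abs_le a; have := abs_nonneg b; linarith)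
    (by have := le_abs_self b; have := abs_nonneg a; linarith) hf⟩

theorem GG.supp {f : H} (hf : f ∈ GG) (y : ℝ) : ∃ M : ℝ, |y| < M ∧ f ∈ Supp (-M) M := by
  obtain ⟨M, hM, hf⟩ := hf
  have := abs_nonneg y
  exact ⟨M + |y|, by linarith, Supp_mono (by linarith) (by linarith) hf⟩

theorem GG.pl {f : H} (hf : f ∈ GG) : f ∈ PL := by
  obtain ⟨M, -, hf⟩ := hf
  exact hf.1

theorem GG.ρ_mem {f : H} (hf : f ∈ GG) : ρ f ∈ GG := by
  obtain ⟨M, hM, hf⟩ := hf
  refine ⟨M, hM, PL.ρ_mem hf.1, fun x hx => ?_, fun x hx => ?_⟩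
  · rw [ρ_apply, hf.2.2 (-x) (by simp at hx ⊢; linarith), neg_neg]
  · rw [ρ_apply, hf.2.1 (-x) (by simp at hx ⊢; linarith), neg_neg]

/-- The commutator subgroup of the group of compactly supported piecewise linear maps. -/
noncomputable def DD : Subgroup H := ⁅GG, GG⁆

theorem DD_le_GG : DD ≤ GG := by
  refine Subgroup.commutator_le.2 fun a ha b hb => ?_
  rw [commutatorElement_def]
  exact GG.mul_mem (GG.mul_mem (GG.mul_mem ha hb) (GG.inv_mem ha)) (GG.inv_mem hb)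

theorem DD.ρ_mem {f : H} (hf : f ∈ DD) : ρ f ∈ DD := by
  have : DD ≤ DD.comap ρ := by
    refine Subgroup.commutator_le.2 fun a ha b hb => ?_
    rw [Subgroup.mem_comap, map_commutatorElement]
    exact Subgroup.commutator_mem_commutator (GG.ρ_mem ha) (GG.ρ_mem hb)
  exact this hf

theorem exists_GG_eqOn {h : H} (hh : h ∈ PL) (a b : ℝ) (hab : a ≤ b) :
    ∃ g ∈ GG, ∀ x, a ≤ x → x ≤ b → g x = h x := by
  obtain ⟨u, hu, u1, u2⟩ := exists_interp PL.one_mem hh (p := min a (h a) - 1) (q := a)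
    (by have := min_le_left a (h a); linarith)
    (by have := min_le_right a (h a); rw [H.one_apply]; linarith)
  obtain ⟨v, hv, v1, v2⟩ := exists_interp hu PL.one_mem (p := b) (q := max b (u b) + 1)
    (by have := le_max_left b (u b); linarith)
    (by have := le_max_right b (u b); rw [H.one_apply]; linarith)
  refine ⟨v, mem_GG_of_Supp (a := min a (h a) - 1) (b := max b (u b) + 1)
    ⟨hv, fun x hx => ?_, fun x hx => v2 x hx⟩, fun x hx hx' => by rw [v1 x hx', u2 x hx]⟩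
  have hx : x ≤ min a (h a) - 1 := hx
  rw [v1 x (by have := min_le_left a (h a); linarith), u1 x hx, H.one_apply]

theorem exists_DD_eqOn {h : H} (hh : h ∈ PL) (a b : ℝ) (hab : a ≤ b) :
    ∃ d ∈ DD, ∀ x, a ≤ x → x ≤ b → d x = h x := by
  obtain ⟨g, hg, g1⟩ := exists_GG_eqOn hh a b hab
  obtain ⟨M, hM, hgM⟩ := GG.supp hg b
  obtain ⟨τ, hτ, τ1⟩ := exists_transl (2 * M)
  obtain ⟨t, ht, t1⟩ := exists_GG_eqOn hτ (-M) (-M) le_rfl
  have ht2 : t (-M) = M := by rw [t1 _ le_rfl le_rfl, τ1]; ring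
  refine ⟨⁅g, t⁆, Subgroup.commutator_mem_commutator hg ht, fun x hx hx' => ?_⟩
  have h3 := Supp_conj ((Supp _ _).inv_mem hgM) (GG.pl ht)
  have h4 : (t * g⁻¹ * t⁻¹) x = x := h3.2.1 x (by
    rw [ht2]; have := le_abs_self b; change x ≤ M; linarith)
  have e : ⁅g, t⁆ = g * (t * g⁻¹ * t⁻¹) := by rw [commutatorElement_def]; group
  rw [e, H.mul_apply, h4, g1 x hx hx']

theorem conj_eq_of_eqOn {a b : ℝ} {p d h : H} (hp : p ∈ Supp a b)
    (hd : ∀ x, a ≤ x → x ≤ b → d x = h x) : d * p * d⁻¹ = h * p * h⁻¹ := by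
  have hc : Commute (h⁻¹ * d) p := by
    refine H.commute_of_disjoint fun x => ?_
    rcases le_total x a with hx | hx
    · exact Or.inr (hp.2.1 x hx)
    · rcases le_total x b with hx' | hx'
      · left; rw [H.mul_apply, hd x hx hx', H.inv_apply]
      · exact Or.inr (hp.2.2 x hx')
  calc d * p * d⁻¹ = h * (h⁻¹ * d * p) * d⁻¹ := by group
    _ = h * (p * (h⁻¹ * d)) * d⁻¹ := by rw [hc.eq]
    _ = h * p * h⁻¹ := by group

/-- Conjugation of a compactly supported element by a piecewise linear map is realised in `DD`. -/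
theorem exists_DD_conj {p h : H} (hp : p ∈ GG) (hh : h ∈ PL) :
    ∃ d ∈ DD, d * p * d⁻¹ = h * p * h⁻¹ := by
  obtain ⟨M, hM, hp⟩ := hp
  obtain ⟨d, hd, d1⟩ := exists_DD_eqOn hh (-M) M (by linarith)
  exact ⟨d, hd, conj_eq_of_eqOn hp d1⟩

theorem DD_ne_bot : DD ≠ ⊥ := by
  intro h
  obtain ⟨τ, hτ, τ1⟩ := exists_transl 1
  obtain ⟨d, hd, d1⟩ := exists_DD_eqOn hτ 0 0 le_rfl
  rw [h, Subgroup.mem_bot] at hd
  have := d1 0 le_rfl le_rfl
  rw [hd, τ1, H.one_apply] at this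
  norm_num at this

theorem exists_lt_apply_of_ne_one {f : H} (hf : f ≠ 1) :
    (∃ x, x < f x) ∨ (∃ x, x < f⁻¹ x) := by
  by_contra hcon
  push Not at hcon
  apply hf
  refine H.ext fun x => le_antisymm (hcon.1 x) ?_
  exact (H.inv_le f).1 (hcon.2 x)

theorem DD_le_of_normal {N : Subgroup H} (hN : N ≤ DD)
    (hconj : ∀ n ∈ N, ∀ d ∈ DD, d * n * d⁻¹ ∈ N) (hne : N ≠ ⊥) : DD ≤ N := by
  have hc : ∀ n ∈ N, ∀ h ∈ PL, h * n * h⁻¹ ∈ N := by
    intro n hn h hh
    obtain ⟨d, hd, e⟩ := exists_DD_conj (DD_le_GG (hN hn)) hh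
    rw [← e]; exact hconj n hn d hd
  obtain ⟨n, hn, x0, hx0⟩ : ∃ n ∈ N, ∃ x, x < n x := by
    obtain ⟨⟨n, hn⟩, hn1⟩ := (Subgroup.ne_bot_iff_exists_ne_one).1 hne
    have hn1' : n ≠ 1 := fun h => hn1 (Subtype.ext h)
    rcases exists_lt_apply_of_ne_one hn1' with h | h
    · exact ⟨n, hn, h⟩
    · exact ⟨n⁻¹, N.inv_mem hn, h⟩
  refine Subgroup.commutator_le.2 fun a ha b hb => ?_
  obtain ⟨M1, hM1, ha1⟩ := ha
  obtain ⟨M2, hM2, hb1⟩ := hb
  have ha2 : a ∈ Supp (-(M1 + M2)) (M1 + M2) := Supp_mono (by linarith) (by linarith) ha1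
  have hb2 : b ∈ Supp (-(M1 + M2)) (M1 + M2) := Supp_mono (by linarith) (by linarith) hb1
  set M := M1 + M2 with hM
  obtain ⟨h, hh, h1, h2⟩ := exists_two hx0 (show -M < M by linarith)
  set m := h * n * h⁻¹ with hm
  have hmN : m ∈ N := hc n hn h hh
  have hmPL : m ∈ PL := GG.pl (DD_le_GG (hN hmN))
  have hm1 : m (-M) = M := by
    rw [hm, H.mul_apply, H.mul_apply, H.inv_eq h h1, h2]
  have hs := Supp_conj ((Supp _ _).inv_mem ha2) hmPL
  rw [hm1] at hs
  have hcomm : Commute (m * a⁻¹ * m⁻¹) b := by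
    refine H.commute_of_disjoint fun x => ?_
    rcases le_total x M with hx | hx
    · exact Or.inl (hs.2.1 x hx)
    · exact Or.inr (hb2.2.2 x hx)
  have hz : a * (m * a⁻¹ * m⁻¹) ∈ N := by
    have := N.mul_mem (hc m hmN a ha2.1) (N.inv_mem hmN)
    have e : a * (m * a⁻¹ * m⁻¹) = a * m * a⁻¹ * m⁻¹ := by group
    rwa [e]
  have hz2 := N.mul_mem hz (hc _ (N.inv_mem hz) b hb2.1)
  have e : a * (m * a⁻¹ * m⁻¹) * (b * (a * (m * a⁻¹ * m⁻¹))⁻¹ * b⁻¹) = ⁅a, b⁆ := by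
    rw [commutatorElement_def]
    calc a * (m * a⁻¹ * m⁻¹) * (b * (a * (m * a⁻¹ * m⁻¹))⁻¹ * b⁻¹)
        = a * ((m * a⁻¹ * m⁻¹) * b) * (m * a⁻¹ * m⁻¹)⁻¹ * a⁻¹ * b⁻¹ := by group
      _ = a * (b * (m * a⁻¹ * m⁻¹)) * (m * a⁻¹ * m⁻¹)⁻¹ * a⁻¹ * b⁻¹ := by rw [hcomm.eq]
      _ = a * b * a⁻¹ * b⁻¹ := by group
  rwa [e] at hz2

theorem isSimpleGroup_DD : IsSimpleGroup DD := by
  rw [Subgroup.isSimpleGroup_iff]
  refine ⟨DD_ne_bot, fun N hN hnorm => ?_⟩
  by_cases hne : N = ⊥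
  · exact Or.inl hne
  · refine Or.inr (le_antisymm hN (DD_le_of_normal hN (fun n hn d hd => ?_) hne))
    have := hnorm.conj_mem ⟨n, hN hn⟩ (by simpa [Subgroup.mem_subgroupOf] using hn) ⟨d, hd⟩
    simpa [Subgroup.mem_subgroupOf] using this

theorem DD_exists_comm {w : H} (hw : w ∈ DD) :
    ∃ M : ℝ, 0 < M ∧ w ∈ ⁅Supp (-M) M, Supp (-M) M⁆ := by
  have mono : ∀ {M N : ℝ}, M ≤ N → ⁅Supp (-M) M, Supp (-M) M⁆ ≤ ⁅Supp (-N) N, Supp (-N) N⁆ :=
    fun h => Subgroup.commutator_mono (Supp_mono (by linarith) h) (Supp_mono (by linarith) h)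
  let K : Subgroup H :=
    { carrier := {w | ∃ M : ℝ, 0 < M ∧ w ∈ ⁅Supp (-M) M, Supp (-M) M⁆}
      mul_mem' := by
        rintro f g ⟨M, hM, hf⟩ ⟨N, hN, hg⟩
        exact ⟨M + N, by linarith, Subgroup.mul_mem _ (mono (by linarith) hf)
          (mono (by linarith) hg)⟩
      one_mem' := ⟨1, one_pos, Subgroup.one_mem _⟩
      inv_mem' := by
        rintro f ⟨M, hM, hf⟩
        exact ⟨M, hM, Subgroup.inv_mem _ hf⟩ }
  have : DD ≤ K := by
    refine Subgroup.commutator_le.2 ?_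
    rintro a ⟨M, hM, ha⟩ b ⟨N, hN, hb⟩
    exact ⟨M + N, by linarith, Subgroup.commutator_mem_commutator
      (Supp_mono (by linarith) (by linarith) ha) (Supp_mono (by linarith) (by linarith) hb)⟩
  exact this hw

/-- An element of `DD` supported strictly inside an interval is a product of commutators of
elements supported in that interval. -/
theorem DD_mem_comm_Supp {w : H} (hw : w ∈ DD) {a p q b : ℝ} (hap : a < p) (hpq : p ≤ q)
    (hqb : q < b) (hs : w ∈ Supp p q) : w ∈ ⁅Supp a b, Supp a b⁆ := by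
  obtain ⟨M, hM, hwM⟩ := DD_exists_comm hw
  set N := M + |p| + |q| with hN
  have hp1 := neg_abs_le p
  have hq1 := le_abs_self q
  have hp0 := abs_nonneg p
  have hq0 := abs_nonneg q
  obtain ⟨τ1, hτ1, t1⟩ := exists_transl (a + N)
  obtain ⟨τ2, hτ2, t2⟩ := exists_transl (b - N)
  obtain ⟨u, hu, u1, u2⟩ := exists_interp hτ1 PL.one_mem (p := -N) (q := p) (by linarith)
    (by rw [t1, H.one_apply]; linarith)
  obtain ⟨k, hk, k1, k2⟩ := exists_interp hu hτ2 (p := q) (q := N) (by linarith)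
    (by rw [t2, u2 q hpq, H.one_apply]; linarith)
  have hka : k (-N) = a := by rw [k1 _ (by linarith), u1 _ le_rfl, t1]; ring
  have hkb : k N = b := by rw [k2 _ le_rfl, t2]; ring
  have e : k * w * k⁻¹ = w := by
    have := conj_eq_of_eqOn (d := k) (h := 1) hs
      (fun x hx hx' => by rw [k1 x hx', u2 x hx])
    simpa using this
  have hle : (Supp (-M) M).map (MulAut.conj k).toMonoidHom ≤ Supp a b := by
    rintro _ ⟨f, hf, rfl⟩
    have := Supp_conj (Supp_mono (a' := -N) (b' := N) (by linarith) (by linarith) hf) hk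
    rw [hka, hkb] at this
    exact this
  have h2 : (MulAut.conj k).toMonoidHom w ∈ ⁅Supp a b, Supp a b⁆ := by
    have := Subgroup.mem_map_of_mem (MulAut.conj k).toMonoidHom hwM
    rw [Subgroup.map_commutator] at this
    exact Subgroup.commutator_mono hle hle this
  have e2 : (MulAut.conj k).toMonoidHom w = w := e
  rwa [e2] at h2

end Pool.Agent.P.MP_23b8d1_al
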