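import Mathlib

/-!
Piecewise linear order automorphisms of the real line whose slopes are integer powers of two.
-/

namespace Pool.Agent.P.MP_23b8d1_al

/-- The group of order automorphisms of the real line. -/
abbrev H : Type := ℝ ≃o ℝ

theorem H.mul_apply (f g : H) (x : ℝ) : (f * g) x = f (g x) := rfl
theorem H.one_apply (x : ℝ) : (1 : H) x = x := rfl
theorem H.inv_apply (f : H) (x : ℝ) : f⁻¹ (f x) = x := RelIso.inv_apply_self f x
theorem H.apply_inv (f : H) (x : ℝ) : f (f⁻¹ x) = x := RelIso.apply_inv_self f x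
theorem H.le (f : H) {x y : ℝ} : f x ≤ f y ↔ x ≤ y := OrderIso.le_iff_le f
theorem H.lt (f : H) {x y : ℝ} : f x < f y ↔ x < y := OrderIso.lt_iff_lt f
theorem H.ext {f g : H} (h : ∀ x, f x = g x) : f = g := RelIso.ext h
theorem H.inj (f : H) {x y : ℝ} (h : f x = f y) : x = y := f.injective h

theorem H.inv_le (f : H) {x y : ℝ} : f⁻¹ x ≤ y ↔ x ≤ f y := by
  rw [← H.le f, H.apply_inv]
theorem H.le_inv (f : H) {x y : ℝ} : x ≤ f⁻¹ y ↔ f x ≤ y := by
  rw [← H.le f, H.apply_inv]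
theorem H.inv_lt (f : H) {x y : ℝ} : f⁻¹ x < y ↔ x < f y := by
  rw [← H.lt f, H.apply_inv]
theorem H.lt_inv (f : H) {x y : ℝ} : x < f⁻¹ y ↔ f x < y := by
  rw [← H.lt f, H.apply_inv]
theorem H.inv_eq (f : H) {x y : ℝ} (h : f x = y) : f⁻¹ y = x := by
  rw [← h, H.inv_apply]

/-- Two automorphisms with disjoint supports commute. -/
theorem H.commute_of_disjoint {f g : H} (h : ∀ x, f x = x ∨ g x = x) : Commute f g := by
  apply H.ext
  intro x
  simp only [H.mul_apply]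
  rcases h x with hx | hx
  · rcases h (g x) with h2 | h2
    · rw [hx, h2]
    · have : g x = x := H.inj g h2
      rw [this, hx, this]
  · rcases h (f x) with h2 | h2
    · have : f x = x := H.inj f h2
      rw [hx, this, hx]
    · rw [hx, h2]

/-- Conjugation by the reflection. -/
noncomputable def refl (f : H) : H where
  toFun x := -f (-x)
  invFun x := -f⁻¹ (-x)
  left_inv x := by simp
  right_inv x := by simp
  map_rel_iff' {a b} := by
    change -f (-a) ≤ -f (-b) ↔ a ≤ b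
    rw [neg_le_neg_iff, H.le, neg_le_neg_iff]

theorem refl_apply (f : H) (x : ℝ) : refl f x = -f (-x) := rfl

/-- Conjugation by the reflection, as a group homomorphism. -/
noncomputable def ρ : H →* H where
  toFun := refl
  map_one' := H.ext fun x => by simp [refl_apply, H.one_apply]
  map_mul' f g := H.ext fun x => by simp [refl_apply, H.mul_apply]

theorem ρ_apply (f : H) (x : ℝ) : ρ f x = -f (-x) := rfl

theorem ρ_ρ (f : H) : ρ (ρ f) = f := H.ext fun x => by simp [ρ_apply]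

/-- `f` is affine with slope `2 ^ k` on a right neighbourhood of `a`. -/
def RG (f : H) (a : ℝ) (k : ℤ) : Prop :=
  ∃ c, a < c ∧ ∀ x, a ≤ x → x ≤ c → f x = f a + (2 : ℝ) ^ k * (x - a)

theorem RG.mul {f g : H} {a : ℝ} {k l : ℤ} (hf : RG f (g a) k) (hg : RG g a l) :
    RG (f * g) a (k + l) := by
  obtain ⟨c, hc, h1⟩ := hf
  obtain ⟨d, hd, h2⟩ := hg
  refine ⟨min d (g⁻¹ c), lt_min hd ((H.lt_inv g).2 hc), fun x hx hx' => ?_⟩
  rw [H.mul_apply, H.mul_apply, h1 (g x) ((H.le g).2 hx) ((H.le_inv g).1 (hx'.trans (min_le_right _ _))),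
    h2 x hx (hx'.trans (min_le_left _ _)), zpow_add₀ (by norm_num : (2 : ℝ) ≠ 0)]
  ring

theorem RG.inv {f : H} {a : ℝ} {k : ℤ} (hf : RG f (f⁻¹ a) k) : RG f⁻¹ a (-k) := by
  obtain ⟨c, hc, h1⟩ := hf
  refine ⟨f c, (H.inv_lt f).1 hc, fun x hx hx' => ?_⟩
  have := h1 (f⁻¹ x) ((H.le f⁻¹).2 hx) ((H.inv_le f).2 hx')
  rw [H.apply_inv, H.apply_inv] at this
  have h2 : (2 : ℝ) ^ k ≠ 0 := by positivity
  rw [zpow_neg]
  field_simp
  linarith

theorem RG.one (a : ℝ) : RG 1 a 0 := ⟨a + 1, by linarith, fun x _ _ => by simp [H.one_apply]⟩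

theorem RG.pow {f : H} {a : ℝ} {k : ℤ} (hf : RG f a k) (ha : f a = a) (n : ℕ) :
    RG (f ^ n) a (n * k) := by
  induction n with
  | zero => simpa using RG.one a
  | succ n ih =>
    rw [pow_succ]
    have : RG (f ^ n) (f a) (n * k) := by rwa [ha]
    have h2 := this.mul hf
    have e : ((n + 1 : ℕ) : ℤ) * k = n * k + k := by push_cast; ring
    rwa [e]

theorem RG.congr {f g : H} {a c : ℝ} {k : ℤ} (hf : RG f a k) (hc : a < c)
    (h : ∀ x, a ≤ x → x ≤ c → g x = f x) : RG g a k := by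
  obtain ⟨d, hd, h1⟩ := hf
  refine ⟨min c d, lt_min hc hd, fun x hx hx' => ?_⟩
  rw [h x hx (hx'.trans (min_le_left _ _)), h a le_rfl hc.le, h1 x hx (hx'.trans (min_le_right _ _))]

/-- The maps that are affine with slope a power of two to the right of every point. -/
def RPL : Subgroup H where
  carrier := {f | ∀ a, ∃ k, RG f a k}
  mul_mem' {f g} hf hg a := by
    obtain ⟨k, hk⟩ := hf (g a)
    obtain ⟨l, hl⟩ := hg a
    exact ⟨k + l, hk.mul hl⟩
  one_mem' a := ⟨0, RG.one a⟩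
  inv_mem' {f} hf a := by
    obtain ⟨k, hk⟩ := hf (f⁻¹ a)
    exact ⟨-k, hk.inv⟩

/-- The maps that are affine with slope a power of two on both sides of every point. -/
noncomputable def PL : Subgroup H := RPL ⊓ RPL.comap ρ

theorem mem_PL {f : H} : f ∈ PL ↔ f ∈ RPL ∧ ρ f ∈ RPL := Iff.rfl

theorem PL.rg {f : H} (hf : f ∈ PL) (a : ℝ) : ∃ k, RG f a k := hf.1 a

theorem PL.ρ_mem {f : H} (hf : f ∈ PL) : ρ f ∈ PL := ⟨hf.2, by
  change ρ (ρ f) ∈ RPL
  rw [ρ_ρ]; exact hf.1⟩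

theorem RPL.glue {f g h : H} {c : ℝ} (hf : f ∈ RPL) (hg : g ∈ RPL)
    (h1 : ∀ x, x ≤ c → h x = f x) (h2 : ∀ x, c ≤ x → h x = g x) : h ∈ RPL := by
  intro a
  rcases lt_or_ge a c with hac | hac
  · obtain ⟨k, hk⟩ := hf a
    exact ⟨k, hk.congr hac fun x _ hx => h1 x hx⟩
  · obtain ⟨k, hk⟩ := hg a
    exact ⟨k, hk.congr (lt_add_one a) fun x hx _ => h2 x (hac.trans hx)⟩

theorem PL.glue {f g h : H} {c : ℝ} (hf : f ∈ PL) (hg : g ∈ PL)
    (h1 : ∀ x, x ≤ c → h x = f x) (h2 : ∀ x, c ≤ x → h x = g x) : h ∈ PL := by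
  refine ⟨RPL.glue hf.1 hg.1 h1 h2, ?_⟩
  refine RPL.glue (c := -c) hg.2 hf.2 (fun x hx => ?_) (fun x hx => ?_)
  · rw [ρ_apply, ρ_apply, h2 (-x) (by linarith)]
  · rw [ρ_apply, ρ_apply, h1 (-x) (by linarith)]

theorem exists_glue (f g : H) (c : ℝ) (hc : f c = g c) :
    ∃ h : H, (∀ x, x ≤ c → h x = f x) ∧ (∀ x, c ≤ x → h x = g x) := by
  classical
  let F : ℝ → ℝ := fun x => if x ≤ c then f x else g x
  have F1 : ∀ x, x ≤ c → F x = f x := fun x hx => if_pos hx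
  have F2 : ∀ x, c ≤ x → F x = g x := fun x hx => by
    rcases hx.eq_or_lt with rfl | hx
    · rw [F1 _ le_rfl, hc]
    · exact if_neg (not_le.2 hx)
  have hm : StrictMono F := by
    intro x y hxy
    rcases le_total y c with hy | hy
    · rw [F1 x (hxy.le.trans hy), F1 y hy]; exact (H.lt f).2 hxy
    · rcases le_total c x with hx | hx
      · rw [F2 x hx, F2 y hy]; exact (H.lt g).2 hxy
      · rw [F1 x hx, F2 y hy]
        rcases hx.eq_or_lt with rfl | hx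
        · rw [hc]; exact (H.lt g).2 hxy
        · exact ((H.lt f).2 hx).trans_le (hc ▸ (H.le g).2 hy)
  have hs : Function.Surjective F := by
    intro y
    rcases le_total y (f c) with hy | hy
    · exact ⟨f⁻¹ y, by rw [F1 _ ((H.inv_le f).2 hy), H.apply_inv]⟩
    · exact ⟨g⁻¹ y, by rw [F2 _ ((H.le_inv g).2 (hc ▸ hy)), H.apply_inv]⟩
  exact ⟨hm.orderIsoOfSurjective F hs, F1, F2⟩

theorem PL.exists_glue {f g : H} (hf : f ∈ PL) (hg : g ∈ PL) (c : ℝ) (hc : f c = g c) :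
    ∃ h ∈ PL, (∀ x, x ≤ c → h x = f x) ∧ (∀ x, c ≤ x → h x = g x) := by
  obtain ⟨h, h1, h2⟩ := Pool.Agent.P.MP_23b8d1_al.exists_glue f g c hc
  exact ⟨h, PL.glue hf hg h1 h2, h1, h2⟩

theorem exists_aff (k : ℤ) (b : ℝ) : ∃ f ∈ PL, ∀ x, f x = (2 : ℝ) ^ k * x + b := by
  have hpos : (0 : ℝ) < 2 ^ k := by positivity
  have hm : StrictMono (fun x : ℝ => (2 : ℝ) ^ k * x + b) := fun x y hxy => by
    have := mul_lt_mul_of_pos_left hxy hpos
    simpa using this
  have hs : Function.Surjective (fun x : ℝ => (2 : ℝ) ^ k * x + b) := fun y =>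
    ⟨(y - b) / 2 ^ k, by field_simp; ring⟩
  refine ⟨hm.orderIsoOfSurjective _ hs, ⟨fun a => ⟨k, a + 1, by linarith, fun x _ _ => ?_⟩,
    fun a => ⟨k, a + 1, by linarith, fun x _ _ => ?_⟩⟩, fun x => rfl⟩
  · change (2 : ℝ) ^ k * x + b = (2 : ℝ) ^ k * a + b + _
    ring
  · change -((2 : ℝ) ^ k * (-x) + b) = -((2 : ℝ) ^ k * (-a) + b) + _
    ring

theorem exists_transl (b : ℝ) : ∃ f ∈ PL, ∀ x, f x = x + b := by
  simpa using exists_aff 0 b

/-- Two-point transitivity. -/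
theorem exists_two {p q p' q' : ℝ} (h : p < q) (h' : p' < q') :
    ∃ f ∈ PL, f p = p' ∧ f q = q' := by
  have hd : 0 < q - p := sub_pos.2 h
  have hd' : 0 < q' - p' := sub_pos.2 h'
  obtain ⟨n, hn⟩ := pow_unbounded_of_one_lt ((q' - p') / (q - p) + (q - p) / (q' - p'))
    (by norm_num : (1 : ℝ) < 2)
  have h1 : (q' - p') < 2 ^ n * (q - p) := by
    have : (q' - p') / (q - p) < 2 ^ n := by
      have : 0 < (q - p) / (q' - p') := by positivity
      linarith
    rwa [div_lt_iff₀ hd] at this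
  have h2 : (q - p) < 2 ^ n * (q' - p') := by
    have : (q - p) / (q' - p') < 2 ^ n := by
      have : 0 < (q' - p') / (q - p) := by positivity
      linarith
    rwa [div_lt_iff₀ hd'] at this
  obtain ⟨f, hf, f1⟩ := exists_aff n (p' - 2 ^ n * p)
  obtain ⟨g, hg, g1⟩ := exists_aff (-n) (q' - (2 ^ n)⁻¹ * q)
  simp only [zpow_natCast, zpow_neg] at f1 g1
  set s : ℝ := 2 ^ n with hs
  have hs0 : 0 < s := by positivity
  have hcont : ContinuousOn (fun x : ℝ => (s * x + (p' - s * p)) - (s⁻¹ * x + (q' - s⁻¹ * q)))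
      (Set.Icc p q) := by fun_prop
  have hmem : (0 : ℝ) ∈ Set.Icc ((s * p + (p' - s * p)) - (s⁻¹ * p + (q' - s⁻¹ * q)))
      ((s * q + (p' - s * p)) - (s⁻¹ * q + (q' - s⁻¹ * q))) := by
    constructor
    · have : s⁻¹ * (q - p) ≤ q' - p' := by
        rw [inv_mul_le_iff₀ hs0]; exact h2.le
      linarith
    · linarith
  obtain ⟨c, ⟨hc1, hc2⟩, hc⟩ := intermediate_value_Icc h.le hcont hmem
  obtain ⟨m, hm, m1, m2⟩ := PL.exists_glue hf hg c (by rw [f1, g1]; simp only at hc; linarith)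
  refine ⟨m, hm, ?_, ?_⟩
  · rw [m1 p hc1, f1]; ring
  · rw [m2 q hc2, g1]; ring

/-- Interpolation between two piecewise linear maps. -/
theorem exists_interp {u v : H} (hu : u ∈ PL) (hv : v ∈ PL) {p q : ℝ} (h : p < q)
    (h' : u p < v q) : ∃ f ∈ PL, (∀ x, x ≤ p → f x = u x) ∧ (∀ x, q ≤ x → f x = v x) := by
  obtain ⟨m, hm, m1, m2⟩ := exists_two h h'
  obtain ⟨g, hg, g1, g2⟩ := PL.exists_glue hu hm p m1.symm
  obtain ⟨f, hf, f1, f2⟩ := PL.exists_glue hg hv q (by rw [g2 q h.le, m2])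
  exact ⟨f, hf, fun x hx => by rw [f1 x (hx.trans h.le), g1 x hx], f2⟩

/-- Three-point transitivity. -/
theorem exists_three {p q r p' q' r' : ℝ} (h1 : p < q) (h2 : q < r) (h1' : p' < q')
    (h2' : q' < r') : ∃ f ∈ PL, f p = p' ∧ f q = q' ∧ f r = r' := by
  obtain ⟨u, hu, u1, u2⟩ := exists_two h1 h1'
  obtain ⟨v, hv, v1, v2⟩ := exists_two h2 h2'
  obtain ⟨f, hf, f1, f2⟩ := PL.exists_glue hu hv q (by rw [u2, v1])
  exact ⟨f, hf, by rw [f1 p h1.le, u1], by rw [f1 q le_rfl, u2], by rw [f2 r h2.le, v2]⟩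

end Pool.Agent.P.MP_23b8d1_al
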