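import Mathlib

/-!
Groups of piecewise linear order automorphisms of the real line with slopes in the powers of `p`
and break points in an additive subgroup `A`.
-/

namespace Pool.Agent.P.MP_23b8d1_al.T

/-- `f` maps `A` onto `A` and is piecewise linear with finitely many break points, all in `A`,
and with slopes integer powers of `p`. -/
def IsPL (p : ℝ) (A : AddSubgroup ℝ) (f : ℝ ≃o ℝ) : Prop :=
  (∀ x, f x ∈ A ↔ x ∈ A) ∧ ∃ S : Finset ℝ, (∀ s ∈ S, s ∈ A) ∧
    ∀ x y, x ≤ y → (∀ s ∈ S, s ≤ x ∨ y ≤ s) →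
      ∃ k : ℤ, ∀ t, x ≤ t → t ≤ y → f t = f x + p ^ k * (t - x)

theorem IsPL.one (p : ℝ) (A : AddSubgroup ℝ) : IsPL p A 1 :=
  ⟨fun _ => Iff.rfl, ∅, by simp, fun x y _ _ => ⟨0, fun t _ _ => by
    change t = x + p ^ (0 : ℤ) * (t - x)
    simp⟩⟩

theorem IsPL.mul {p : ℝ} {A : AddSubgroup ℝ} {f g : ℝ ≃o ℝ} (hf : IsPL p A f) (hg : IsPL p A g) :
    IsPL p A (f * g) := by
  classical
  obtain ⟨f1, S, hS, f2⟩ := hf
  obtain ⟨g1, U, hU, g2⟩ := hg
  refine ⟨fun x => (f1 (g x)).trans (g1 x), U ∪ S.image g.symm, fun s hs => ?_,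
    fun x y hxy h => ?_⟩
  · rcases Finset.mem_union.1 hs with hs | hs
    · exact hU s hs
    · obtain ⟨u, hu, rfl⟩ := Finset.mem_image.1 hs
      rw [← g1, g.apply_symm_apply]
      exact hS u hu
  obtain ⟨l, hl⟩ := g2 x y hxy fun s hs => h s (Finset.mem_union_left _ hs)
  obtain ⟨k, hk⟩ := f2 (g x) (g y) (g.monotone hxy) fun s hs => by
    rw [← g.symm_apply_le, ← g.le_symm_apply]
    exact h _ (Finset.mem_union_right _ (Finset.mem_image_of_mem _ hs))
  obtain ⟨m, hm⟩ : ∃ m : ℤ, p ^ m = p ^ k * p ^ l := by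
    by_cases hp : p = 0
    · by_cases hk0 : k = 0
      · exact ⟨l, by simp [hk0]⟩
      · exact ⟨k, by simp [hp, zero_zpow k hk0]⟩
    · exact ⟨k + l, zpow_add₀ hp k l⟩
  refine ⟨m, fun t h1 h2 => ?_⟩
  change f (g t) = f (g x) + _
  rw [hk (g t) (g.monotone h1) (g.monotone h2), hl t h1 h2, hm]
  ring

theorem IsPL.inv {p : ℝ} {A : AddSubgroup ℝ} {f : ℝ ≃o ℝ} (hf : IsPL p A f) : IsPL p A f⁻¹ := by
  classical
  obtain ⟨f1, S, hS, f2⟩ := hf
  change IsPL p A f.symm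
  refine ⟨fun x => by rw [← f1, f.apply_symm_apply], S.image f, fun s hs => ?_,
    fun x y hxy h => ?_⟩
  · obtain ⟨u, hu, rfl⟩ := Finset.mem_image.1 hs
    exact (f1 u).2 (hS u hu)
  obtain ⟨k, hk⟩ := f2 (f.symm x) (f.symm y) (f.symm.monotone hxy) fun s hs => by
    rw [f.le_symm_apply, f.symm_apply_le]
    exact h _ (Finset.mem_image_of_mem _ hs)
  refine ⟨-k, fun t h1 h2 => ?_⟩
  have h3 := hk (f.symm t) (f.symm.monotone h1) (f.symm.monotone h2)
  rw [f.apply_symm_apply, f.apply_symm_apply] at h3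
  by_cases h0 : p ^ k = 0
  · rw [h0, zero_mul, add_zero] at h3
    rw [h3, sub_self, mul_zero, add_zero]
  · rw [zpow_neg]
    field_simp
    linarith

/-- The group of the piecewise linear maps that fix every point outside the unit interval. For
`p = 2` and `A` the dyadic rationals this is the group `F` of R. Thompson. -/
def Th (p : ℝ) (A : AddSubgroup ℝ) : Subgroup (ℝ ≃o ℝ) where
  carrier := {f | IsPL p A f ∧ ∀ x, x ≤ 0 ∨ 1 ≤ x → f x = x}
  mul_mem' {f g} hf hg := ⟨hf.1.mul hg.1, fun x hx => by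
    change f (g x) = x
    rw [hg.2 x hx, hf.2 x hx]⟩
  one_mem' := ⟨IsPL.one p A, fun _ _ => rfl⟩
  inv_mem' {f} hf := ⟨hf.1.inv, fun x hx => by
    change f.symm x = x
    rw [f.symm_apply_eq, hf.2 x hx]⟩

end Pool.Agent.P.MP_23b8d1_al.T
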