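import Pool.Agent.P.MP_23b8d1_al.TCones
import Pool.Prelude.Def_F_6038d89f

/-!
Localisation to the unit interval: the commutator subgroup of `Th p A` is simple and pro-orderable.
-/

open scoped commutatorElement

namespace Pool.Agent.P.MP_23b8d1_al.T

variable {p : ℝ} {A : AddSubgroup ℝ}

theorem Th_eq : Th p A = Supp p A 0 1 := by
  ext f
  exact ⟨fun h => ⟨h.1, fun x hx => h.2 x (Or.inl hx), fun x hx => h.2 x (Or.inr hx)⟩,
    fun h => ⟨h.1, fun x hx => hx.elim (h.2.1 x) (h.2.2 x)⟩⟩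

/-- the commutator subgroup of the group of the unit interval -/
def D1 (p : ℝ) (A : AddSubgroup ℝ) : Subgroup H := ⁅Supp p A 0 1, Supp p A 0 1⁆

theorem D1_le_DD : D1 p A ≤ DD p A :=
  Subgroup.commutator_mono (fun _ h => mem_GG_of_Supp h) fun _ h => mem_GG_of_Supp h

theorem comm_left (hy : Hyp p A) {a b : ℝ} {w : H} (hw : w ∈ ⁅Supp p A a b, Supp p A a b⁆) :
    ∃ c, a < c ∧ ∀ x, x ≤ c → w x = x := by
  let K : Subgroup H :=
    { carrier := {w | ∃ c, a < c ∧ ∀ x, x ≤ c → w x = x}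
      mul_mem' := by
        rintro f g ⟨c, hc, hf⟩ ⟨d, hd, hg⟩
        exact ⟨min c d, lt_min hc hd, fun x hx => by
          rw [H.mul_apply, hg x (hx.trans (min_le_right _ _)), hf x (hx.trans (min_le_left _ _))]⟩
      one_mem' := ⟨a + 1, by linarith, fun _ _ => rfl⟩
      inv_mem' := by
        rintro f ⟨c, hc, hf⟩
        exact ⟨c, hc, fun x hx => H.inv_eq f (hf x hx)⟩ }
  have : ⁅Supp p A a b, Supp p A a b⁆ ≤ K := by
    refine Subgroup.commutator_le.2 fun f hf g hg => ?_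
    obtain ⟨k, hk⟩ := PL.rg hf.1 a
    obtain ⟨l, hl⟩ := PL.rg hg.1 a
    have fx : ∀ u ∈ Supp p A a b, u a = a := fun u hu => hu.2.1 a Set.self_mem_Iic
    have h1 : RG p f⁻¹ a (-k) := RG.inv hy (by rwa [fx _ (inv_mem hf)])
    have h2 : RG p g⁻¹ a (-l) := RG.inv hy (by rwa [fx _ (inv_mem hg)])
    have h3 : RG p (f * g) a (k + l) := RG.mul hy (by rwa [fx _ hg]) hl
    have h4 : RG p (f * g * f⁻¹) a (k + l + -k) := RG.mul hy (by rwa [fx _ (inv_mem hf)]) h1
    have h5 : RG p (f * g * f⁻¹ * g⁻¹) a (k + l + -k + -l) :=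
      RG.mul hy (by rwa [fx _ (inv_mem hg)]) h2
    have hm : f * g * f⁻¹ * g⁻¹ ∈ Supp p A a b :=
      mul_mem (mul_mem (mul_mem hf hg) (inv_mem hf)) (inv_mem hg)
    obtain ⟨c, hc, h6⟩ := h5
    rw [commutatorElement_def]
    refine ⟨c, hc, fun x hx => ?_⟩
    rcases le_total x a with h | h
    · exact hm.2.1 x h
    · rw [h6 x h hx, fx _ hm, show k + l + -k + -l = 0 by ring]
      simp
  exact this hw

theorem D1_supp (hy : Hyp p A) {w : H} (hw : w ∈ D1 p A) :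
    ∃ a b, 0 < a ∧ b < 1 ∧ w ∈ Supp p A a b := by
  obtain ⟨a, ha, h1⟩ := comm_left hy hw
  have hle : (Supp p A 0 1).map ρ ≤ Supp p A (-1) 0 := by
    rintro _ ⟨f, hf, rfl⟩
    refine ⟨PL.ρ_mem hf.1, fun x hx => ?_, fun x hx => ?_⟩
    · rw [ρ_apply, hf.2.2 (-x) (by simp at hx ⊢; linarith), neg_neg]
    · rw [ρ_apply, hf.2.1 (-x) (by simp at hx ⊢; linarith), neg_neg]
  have h2 : ρ w ∈ ⁅Supp p A (-1) 0, Supp p A (-1) 0⁆ := by
    have := Subgroup.mem_map_of_mem ρ hw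
    rw [D1, Subgroup.map_commutator] at this
    exact Subgroup.commutator_mono hle hle this
  obtain ⟨b, hb, h3⟩ := comm_left hy h2
  refine ⟨a, -b, ha, by linarith, GG.pl (DD_le_GG (D1_le_DD hw)), h1, fun x hx => ?_⟩
  have hx : -b ≤ x := hx
  have := h3 (-x) (by linarith)
  rw [ρ_apply, neg_neg] at this
  linarith

theorem exists_D1_eqOn (hy : Hyp p A) {h : H} (hh : h ∈ PL p A) {a b : ℝ} (hab : a ≤ b)
    (ha : 0 < a) (hb : b < 1) (ha' : 0 < h a) (hb' : h b < 1) :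
    ∃ d ∈ D1 p A, ∀ x, a ≤ x → x ≤ b → d x = h x := by
  obtain ⟨d, hd, d1⟩ := exists_DD_eqOn hy hh a b hab
  obtain ⟨M, hM, hdM⟩ := DD_le_GG hd
  obtain ⟨k, hk, k1, k2, k3⟩ := exists_compress hy (lt_min ha ha')
    ((min_le_left _ _).trans (hab.trans (le_max_left _ _))) (max_lt hb hb') M
  refine ⟨k * d * k⁻¹, DD_mem_comm_Supp hy (DD.conj hy hd hk) k2 ((H.le k).2 (by linarith)) k3
    (Supp_conj hdM hk), fun x hx hx' => ?_⟩
  rw [H.mul_apply, H.mul_apply, H.inv_eq k (k1 x ((min_le_left _ _).trans hx)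
    (hx'.trans (le_max_left _ _))), d1 x hx hx']
  exact k1 _ ((min_le_right _ _).trans ((H.le h).2 hx)) (((H.le h).2 hx').trans (le_max_right _ _))

theorem conj_mem (hy : Hyp p A) {P : Set H} (h1 : ∀ f ∈ P, f ∈ D1 p A)
    (h2 : ∀ f ∈ P, ∀ d ∈ D1 p A, d * f * d⁻¹ ∈ P) {q h : H} (hq : q ∈ P) (hh : h ∈ PL p A)
    {a' b' : ℝ} (ha' : 0 < a') (hb' : b' < 1) (hs : h * q * h⁻¹ ∈ Supp p A a' b') :
    h * q * h⁻¹ ∈ P := by
  obtain ⟨a, b, ha, hb, hq1⟩ := D1_supp hy (h1 q hq)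
  have hq2 := Supp_conj hs (inv_mem hh)
  rw [show h⁻¹ * (h * q * h⁻¹) * h⁻¹⁻¹ = q by group] at hq2
  have hq3 : q ∈ Supp p A (max a (h⁻¹ a')) (min b (h⁻¹ b')) :=
    ⟨hq1.1,
      fun x hx => (le_max_iff.1 (show x ≤ max a (h⁻¹ a') from hx)).elim (hq1.2.1 x) (hq2.2.1 x),
      fun x hx => (min_le_iff.1 (show min b (h⁻¹ b') ≤ x from hx)).elim (hq1.2.2 x) (hq2.2.2 x)⟩
  rcases le_total (max a (h⁻¹ a')) (min b (h⁻¹ b')) with hle | hle
  · obtain ⟨d, hd, d1⟩ := exists_D1_eqOn hy hh hle (ha.trans_le (le_max_left _ _))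
      ((min_le_left _ _).trans_lt hb) (ha'.trans_le ((H.inv_le h).1 (le_max_right _ _)))
      (((H.le_inv h).1 (min_le_right _ _)).trans_lt hb')
    rw [← conj_eq_of_eqOn hq3 d1]
    exact h2 q hq d hd
  · have : q = 1 := H.ext fun x => by
      rcases le_total x (max a (h⁻¹ a')) with hx | hx
      · exact hq3.2.1 x hx
      · exact hq3.2.2 x (hle.trans hx)
    rw [this] at hq ⊢
    simpa using hq

/-- the conjugates of the elements of `P` -/
def Ext (p : ℝ) (A : AddSubgroup ℝ) (P : Set H) : Set H := {g | ∃ k ∈ PL p A, k * g * k⁻¹ ∈ P}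

theorem subset_Ext (P : Set H) : P ⊆ Ext p A P := fun g hg => ⟨1, one_mem _, by simpa using hg⟩

theorem nor_Ext (hy : Hyp p A) {P : Set H} (h1 : ∀ f ∈ P, f ∈ D1 p A)
    (h2 : ∀ f ∈ P, ∀ d ∈ D1 p A, d * f * d⁻¹ ∈ P) (h3 : ∀ f ∈ P, ∀ g ∈ P, f * g ∈ P) :
    Nor p A (Ext p A P) := by
  have hs : ∀ f ∈ Ext p A P, f ∈ DD p A := by
    rintro f ⟨k, hk, hf⟩
    have := DD.conj hy (D1_le_DD (h1 _ hf)) (inv_mem hk)
    rwa [show k⁻¹ * (k * f * k⁻¹) * k⁻¹⁻¹ = f by group] at this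
  refine ⟨hs, fun f hf g hg => ?_, ?_⟩
  · obtain ⟨M, hM, hfM⟩ := DD_le_GG (hs f hf)
    obtain ⟨N, hN, hgN⟩ := DD_le_GG (hs g hg)
    obtain ⟨k, hk, -, k2, k3⟩ := exists_compress hy (a := 0) (u := 1 / 2) (b := 1) (by norm_num)
      le_rfl (by norm_num) (M + N)
    have key : ∀ u ∈ Ext p A P, u ∈ Supp p A (-(M + N)) (M + N) → k * u * k⁻¹ ∈ P := by
      rintro u ⟨l, hl, hu⟩ hu'
      have e : k * l⁻¹ * (l * u * l⁻¹) * (k * l⁻¹)⁻¹ = k * u * k⁻¹ := by group
      rw [← e]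
      exact conj_mem hy h1 h2 hu (mul_mem hk (inv_mem hl)) k2 k3 (e ▸ Supp_conj hu' hk)
    refine ⟨k, hk, ?_⟩
    rw [show k * (f * g) * k⁻¹ = k * f * k⁻¹ * (k * g * k⁻¹) by group]
    exact h3 _ (key f hf (Supp_mono (by linarith) (by linarith) hfM)) _
      (key g hg (Supp_mono (by linarith) (by linarith) hgN))
  · rintro f ⟨k, hk, hf⟩ h hh
    refine ⟨k * h⁻¹, mul_mem hk (inv_mem hh), ?_⟩
    rwa [show k * h⁻¹ * (h * f * h⁻¹) * (k * h⁻¹)⁻¹ = k * f * k⁻¹ by group]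

theorem D1_ne_bot (hy : Hyp p A) : D1 p A ≠ ⊥ := by
  intro h
  obtain ⟨a, ha, a1, a2⟩ := hy.btw (zero_lt_one (α := ℝ))
  obtain ⟨b, hb, b1, b2⟩ := hy.btw a2
  obtain ⟨τ, hτ, τ1⟩ := exists_transl hy (A.sub_mem hb ha)
  obtain ⟨d, hd, d1⟩ := exists_D1_eqOn hy hτ le_rfl a1 a2 (by rw [τ1]; linarith)
    (by rw [τ1]; linarith)
  rw [h, Subgroup.mem_bot] at hd
  have := d1 a le_rfl le_rfl
  rw [hd, τ1, H.one_apply] at this
  linarith

theorem isSimpleGroup_D1 (hy : Hyp p A) : IsSimpleGroup (D1 p A) := by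
  rw [Subgroup.isSimpleGroup_iff]
  refine ⟨D1_ne_bot hy, fun N hN hnorm => ?_⟩
  by_cases hne : N = ⊥
  · exact Or.inl hne
  have h2 : ∀ f ∈ (N : Set H), ∀ d ∈ D1 p A, d * f * d⁻¹ ∈ (N : Set H) := fun n hn d hd => by
    have := hnorm.conj_mem ⟨n, hN hn⟩ (by simpa [Subgroup.mem_subgroupOf] using hn) ⟨d, hd⟩
    simpa [Subgroup.mem_subgroupOf] using this
  have hE := nor_Ext hy (P := N) (fun f hf => hN hf) h2 fun f hf g hg => N.mul_mem hf hg
  let K : Subgroup H :=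
    { carrier := Ext p A N
      mul_mem' := fun hf hg => hE.mul _ hf _ hg
      one_mem' := subset_Ext _ N.one_mem
      inv_mem' := by
        rintro f ⟨k, hk, hf⟩
        refine ⟨k, hk, ?_⟩
        rw [show k * f⁻¹ * k⁻¹ = (k * f * k⁻¹)⁻¹ by group]
        exact N.inv_mem hf }
  have hK : DD p A ≤ K := DD_le_of_normal hy hE.sub hE.conj fun h =>
    hne (eq_bot_iff.2 fun f hf => h ▸ (subset_Ext _ hf : f ∈ K))
  refine Or.inr (le_antisymm hN fun w hw => ?_)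
  obtain ⟨k, hk, hkw⟩ := hK (D1_le_DD hw)
  obtain ⟨a, b, ha, hb, hs⟩ := D1_supp hy hw
  have e : k⁻¹ * (k * w * k⁻¹) * k⁻¹⁻¹ = w := by group
  have := conj_mem hy (P := N) (fun f hf => hN hf) h2 hkw (inv_mem hk) ha hb (e.symm ▸ hs)
  rwa [e] at this

theorem four_orders (hy : Hyp p A) {Γ : Type*} [Group Γ] (e : Γ ≃* D1 p A) :
    ∃ s : Fin 4 → Γ → Γ → Prop, (∀ i, IsLinearOrder Γ (s i) ∧ N5f09da3c.IsBiInvariant Γ (s i)) ∧
      ∀ r : Γ → Γ → Prop, IsPartialOrder Γ r → N5f09da3c.IsBiInvariant Γ r →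
        ∃ i, ∀ x y, r x y → s i x y := by
  let φ : Γ →* H := (D1 p A).subtype.comp e.toMonoidHom
  have hφ : Function.Injective φ := (D1 p A).subtype_injective.comp e.injective
  have hφD : ∀ g, φ g ∈ D1 p A := fun g => (e g).2
  have hφs : ∀ d ∈ D1 p A, ∃ g, φ g = d := fun d hd => ⟨e.symm ⟨d, hd⟩, by simp [φ]⟩
  refine ⟨fun i x y => x = y ∨ φ (x⁻¹ * y) ∈ cone i, fun i => ?_, fun r hr hinv => ?_⟩
  · have hC := isCone_cone hy i
    refine ⟨?_, ?_, ?_⟩
    · refine { refl := fun x => Or.inl rfl, trans := ?_, antisymm := ?_, total := ?_ }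
      · rintro x y z (rfl | hxy) hyz
        · exact hyz
        · rcases hyz with rfl | hyz
          · exact Or.inr hxy
          · right
            have := hC.mul _ hxy _ hyz
            rw [← map_mul] at this
            have e : x⁻¹ * y * (y⁻¹ * z) = x⁻¹ * z := by group
            rwa [e] at this
      · rintro x y (rfl | hxy) hyx
        · rfl
        · rcases hyx with rfl | hyx
          · rfl
          · exfalso
            have := hC.mul _ hxy _ hyx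
            rw [← map_mul] at this
            have e : x⁻¹ * y * (y⁻¹ * x) = 1 := by group
            rw [e, map_one] at this
            exact hC.one this
      · intro x y
        by_cases hxy : x = y
        · exact Or.inl (Or.inl hxy)
        · have hne : φ (x⁻¹ * y) ≠ 1 := fun h => hxy (by
            have : x⁻¹ * y = 1 := hφ (by rw [h, map_one])
            exact inv_mul_eq_one.1 this)
          rcases hC.total _ (DD_le_GG (D1_le_DD (hφD _))) hne with h | h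
          · exact Or.inl (Or.inr h)
          · right; right
            rw [← map_inv] at h
            simpa using h
    · rintro g x y (rfl | hxy)
      · exact Or.inl rfl
      · right
        have e : (g * x)⁻¹ * (g * y) = x⁻¹ * y := by group
        rwa [e]
    · rintro g x y (rfl | hxy)
      · exact Or.inl rfl
      · right
        have := hC.conj _ hxy (φ g⁻¹)
        rw [← map_inv, ← map_mul, ← map_mul] at this
        have e : (x * g)⁻¹ * (y * g) = g⁻¹ * (x⁻¹ * y) * g⁻¹⁻¹ := by group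
        rwa [e]
  let P : Set H := {f | ∃ g : Γ, r 1 g ∧ g ≠ 1 ∧ φ g = f}
  have hP : Nor p A (Ext p A P) := by
    refine nor_Ext hy ?_ ?_ ?_
    · rintro _ ⟨g, -, -, rfl⟩
      exact hφD g
    · rintro _ ⟨g, hg, hg1, rfl⟩ d hd
      obtain ⟨k, rfl⟩ := hφs d hd
      refine ⟨k * g * k⁻¹, ?_, fun h => hg1 ?_, by rw [map_mul, map_mul, map_inv]⟩
      · simpa using hinv.2 k⁻¹ _ _ (hinv.1 k _ _ hg)
      · have : g = k⁻¹ * (k * g * k⁻¹) * k := by group
        rw [this, h]; group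
    · rintro _ ⟨g, hg, hg1, rfl⟩ _ ⟨g', hg', -, rfl⟩
      have h1 : r g (g * g') := by simpa using hinv.1 g _ _ hg'
      refine ⟨g * g', hr.trans _ _ _ hg h1, fun h => hg1 ?_, map_mul _ _ _⟩
      rw [h] at h1
      exact hr.antisymm _ _ h1 hg
  have h1 : (1 : H) ∉ Ext p A P := by
    rintro ⟨k, -, g, -, hg1, hg⟩
    exact hg1 (hφ (by rw [hg, map_one, mul_one, mul_inv_cancel]))
  obtain ⟨i, hPC'⟩ := exists_cone hy hP h1
  have hPC := (subset_Ext P).trans hPC'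
  refine ⟨i, fun x y hxy => ?_⟩
  by_cases h : x = y
  · exact Or.inl h
  · right
    refine hPC ⟨x⁻¹ * y, by simpa using hinv.1 x⁻¹ _ _ hxy, fun h' => h ?_, rfl⟩
    exact inv_mul_eq_one.1 h'

/-- the commutator subgroup of `Th p A` as a group of order automorphisms -/
noncomputable def commEquiv (p : ℝ) (A : AddSubgroup ℝ) : commutator (Th p A) ≃* D1 p A :=
  ((commutator (Th p A)).equivMapOfInjective (Th p A).subtype (Th p A).subtype_injective).trans
    (MulEquiv.subgroupCongr (by rw [Subgroup.map_subtype_commutator, Th_eq, D1]))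

end Pool.Agent.P.MP_23b8d1_al.T
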