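import Pool.Agent.P.MP_23b8d1_al.TPL

/-!
The group `GG` of compactly supported piecewise linear maps and its commutator subgroup `DD`.
-/

open scoped commutatorElement

namespace Pool.Agent.P.MP_23b8d1_al.T

variable {p : ℝ} {A : AddSubgroup ℝ}

/-- Piecewise linear maps supported in the interval from `a` to `b`. -/
def Supp (p : ℝ) (A : AddSubgroup ℝ) (a b : ℝ) : Subgroup H :=
  PL p A ⊓ (Fix (Set.Iic a) ⊓ Fix (Set.Ici b))

theorem Supp_mono {a b a' b' : ℝ} (ha : a' ≤ a) (hb : b ≤ b') : Supp p A a b ≤ Supp p A a' b' :=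
  fun _ hf => ⟨hf.1, fun x hx => hf.2.1 x (le_trans hx ha), fun x hx => hf.2.2 x (le_trans hb hx)⟩

theorem Supp_conj {a b : ℝ} {f h : H} (hf : f ∈ Supp p A a b) (hh : h ∈ PL p A) :
    h * f * h⁻¹ ∈ Supp p A (h a) (h b) := by
  refine ⟨(PL p A).mul_mem ((PL p A).mul_mem hh hf.1) ((PL p A).inv_mem hh), fun x hx => ?_,
    fun x hx => ?_⟩
  · rw [H.mul_apply, H.mul_apply, hf.2.1 _ ((H.inv_le h).2 hx), H.apply_inv]
  · rw [H.mul_apply, H.mul_apply, hf.2.2 _ ((H.le_inv h).2 hx), H.apply_inv]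

/-- Compactly supported piecewise linear maps. -/
def GG (p : ℝ) (A : AddSubgroup ℝ) : Subgroup H where
  carrier := {f | ∃ M : ℝ, 0 < M ∧ f ∈ Supp p A (-M) M}
  mul_mem' := by
    rintro f g ⟨M, hM, hf⟩ ⟨N, hN, hg⟩
    exact ⟨M + N, by linarith, (Supp _ _ _ _).mul_mem (Supp_mono (by linarith) (by linarith) hf)
      (Supp_mono (by linarith) (by linarith) hg)⟩
  one_mem' := ⟨1, one_pos, (Supp _ _ _ _).one_mem⟩
  inv_mem' := by
    rintro f ⟨M, hM, hf⟩
    exact ⟨M, hM, (Supp _ _ _ _).inv_mem hf⟩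

theorem mem_GG_of_Supp {a b : ℝ} {f : H} (hf : f ∈ Supp p A a b) : f ∈ GG p A :=
  ⟨|a| + |b| + 1, by positivity, Supp_mono
    (by have := neg_abs_le a; have := abs_nonneg b; linarith)
    (by have := le_abs_self b; have := abs_nonneg a; linarith) hf⟩

theorem GG.supp (hy : Hyp p A) {f : H} (hf : f ∈ GG p A) (y : ℝ) :
    ∃ M ∈ A, |y| < M ∧ f ∈ Supp p A (-M) M := by
  obtain ⟨M, hM, hf⟩ := hf
  have := abs_nonneg y
  obtain ⟨N, hN, h1, -⟩ := hy.btw (lt_add_one (M + |y|))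
  exact ⟨N, hN, by linarith, Supp_mono (by linarith) (by linarith) hf⟩

theorem GG.pl {f : H} (hf : f ∈ GG p A) : f ∈ PL p A := by
  obtain ⟨M, -, hf⟩ := hf
  exact hf.1

theorem GG.ρ_mem {f : H} (hf : f ∈ GG p A) : ρ f ∈ GG p A := by
  obtain ⟨M, hM, hf⟩ := hf
  refine ⟨M, hM, PL.ρ_mem hf.1, fun x hx => ?_, fun x hx => ?_⟩
  · rw [ρ_apply, hf.2.2 (-x) (by simp at hx ⊢; linarith), neg_neg]
  · rw [ρ_apply, hf.2.1 (-x) (by simp at hx ⊢; linarith), neg_neg]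

/-- The commutator subgroup of the group of compactly supported piecewise linear maps. -/
def DD (p : ℝ) (A : AddSubgroup ℝ) : Subgroup H := ⁅GG p A, GG p A⁆

theorem DD_le_GG : DD p A ≤ GG p A := by
  refine Subgroup.commutator_le.2 fun a ha b hb => ?_
  rw [commutatorElement_def]
  exact mul_mem (mul_mem (mul_mem ha hb) (inv_mem ha)) (inv_mem hb)

theorem DD.ρ_mem {f : H} (hf : f ∈ DD p A) : ρ f ∈ DD p A := by
  have : DD p A ≤ (DD p A).comap ρ := by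
    refine Subgroup.commutator_le.2 fun a ha b hb => ?_
    rw [Subgroup.mem_comap, map_commutatorElement]
    exact Subgroup.commutator_mem_commutator (GG.ρ_mem ha) (GG.ρ_mem hb)
  exact this hf

theorem exists_GG_eqOn (hy : Hyp p A) {h : H} (hh : h ∈ PL p A) (a b : ℝ) (hab : a ≤ b) :
    ∃ g ∈ GG p A, ∀ x, a ≤ x → x ≤ b → g x = h x := by
  obtain ⟨u, hu, u1, u2⟩ := exists_interp hy (PL p A).one_mem hh (a := min a (h a) - 1) (b := a)
    (by have := min_le_left a (h a); linarith)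
    (by have := min_le_right a (h a); rw [H.one_apply]; linarith)
  obtain ⟨v, hv, v1, v2⟩ := exists_interp hy hu (PL p A).one_mem (a := b) (b := max b (u b) + 1)
    (by have := le_max_left b (u b); linarith)
    (by have := le_max_right b (u b); rw [H.one_apply]; linarith)
  refine ⟨v, mem_GG_of_Supp (a := min a (h a) - 1) (b := max b (u b) + 1)
    ⟨hv, fun x hx => ?_, fun x hx => v2 x hx⟩, fun x hx hx' => by rw [v1 x hx', u2 x hx]⟩
  have hx : x ≤ min a (h a) - 1 := hx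
  rw [v1 x (by have := min_le_left a (h a); linarith), u1 x hx, H.one_apply]

theorem exists_DD_eqOn (hy : Hyp p A) {h : H} (hh : h ∈ PL p A) (a b : ℝ) (hab : a ≤ b) :
    ∃ d ∈ DD p A, ∀ x, a ≤ x → x ≤ b → d x = h x := by
  obtain ⟨g, hg, g1⟩ := exists_GG_eqOn hy hh a b hab
  obtain ⟨M, hMA, hM, hgM⟩ := GG.supp hy hg b
  obtain ⟨τ, hτ, τ1⟩ := exists_transl hy (A.add_mem hMA hMA)
  obtain ⟨t, ht, t1⟩ := exists_GG_eqOn hy hτ (-M) (-M) le_rfl
  have ht2 : t (-M) = M := by rw [t1 _ le_rfl le_rfl, τ1]; ring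
  refine ⟨⁅g, t⁆, Subgroup.commutator_mem_commutator hg ht, fun x hx hx' => ?_⟩
  have h3 := Supp_conj ((Supp _ _ _ _).inv_mem hgM) (GG.pl ht)
  have h4 : (t * g⁻¹ * t⁻¹) x = x := h3.2.1 x (by
    rw [ht2]; have := le_abs_self b; change x ≤ M; linarith)
  have e : ⁅g, t⁆ = g * (t * g⁻¹ * t⁻¹) := by rw [commutatorElement_def]; group
  rw [e, H.mul_apply, h4, g1 x hx hx']

theorem conj_eq_of_eqOn {a b : ℝ} {q d h : H} (hq : q ∈ Supp p A a b)
    (hd : ∀ x, a ≤ x → x ≤ b → d x = h x) : d * q * d⁻¹ = h * q * h⁻¹ := by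
  have hc : Commute (h⁻¹ * d) q := by
    refine H.commute_of_disjoint fun x => ?_
    rcases le_total x a with hx | hx
    · exact Or.inr (hq.2.1 x hx)
    · rcases le_total x b with hx' | hx'
      · left; rw [H.mul_apply, hd x hx hx', H.inv_apply]
      · exact Or.inr (hq.2.2 x hx')
  calc d * q * d⁻¹ = h * (h⁻¹ * d * q) * d⁻¹ := by group
    _ = h * (q * (h⁻¹ * d)) * d⁻¹ := by rw [hc.eq]
    _ = h * q * h⁻¹ := by group

/-- Conjugation of a compactly supported element by a piecewise linear map is realised in `DD`. -/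
theorem exists_DD_conj (hy : Hyp p A) {q h : H} (hq : q ∈ GG p A) (hh : h ∈ PL p A) :
    ∃ d ∈ DD p A, d * q * d⁻¹ = h * q * h⁻¹ := by
  obtain ⟨M, hM, hq⟩ := hq
  obtain ⟨d, hd, d1⟩ := exists_DD_eqOn hy hh (-M) M (by linarith)
  exact ⟨d, hd, conj_eq_of_eqOn hq d1⟩

theorem DD.conj (hy : Hyp p A) {q h : H} (hq : q ∈ DD p A) (hh : h ∈ PL p A) :
    h * q * h⁻¹ ∈ DD p A := by
  obtain ⟨d, hd, e⟩ := exists_DD_conj hy (DD_le_GG hq) hh
  rw [← e]
  exact mul_mem (mul_mem hd hq) (inv_mem hd)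

theorem DD_le_of_normal (hy : Hyp p A) {N : Subgroup H} (hN : N ≤ DD p A)
    (hc : ∀ n ∈ N, ∀ h ∈ PL p A, h * n * h⁻¹ ∈ N) (hne : N ≠ ⊥) : DD p A ≤ N := by
  obtain ⟨n, hn, x0, hx0A, hx0⟩ : ∃ n ∈ N, ∃ x ∈ A, x < n x := by
    have k : ∀ n : H, (∃ x, x < n x) → ∃ x ∈ A, x < n x := by
      rintro n ⟨x, hx⟩
      obtain ⟨y, hyA, h1, h2⟩ := hy.btw hx
      exact ⟨y, hyA, h2.trans ((H.lt n).2 h1)⟩
    obtain ⟨⟨n, hn⟩, hn1⟩ := (Subgroup.ne_bot_iff_exists_ne_one).1 hne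
    have hn1' : n ≠ 1 := fun h => hn1 (Subtype.ext h)
    rcases exists_lt_apply_of_ne_one hn1' with h | h
    · exact ⟨n, hn, k _ h⟩
    · exact ⟨n⁻¹, N.inv_mem hn, k _ h⟩
  refine Subgroup.commutator_le.2 fun a ha b hb => ?_
  obtain ⟨M1, hM1, ha1⟩ := ha
  obtain ⟨M, hMA, hM2, hb2⟩ := GG.supp hy hb M1
  have hM3 := le_abs_self M1
  have ha2 : a ∈ Supp p A (-M) M := Supp_mono (by linarith) (by linarith) ha1
  obtain ⟨h, hh, h1, h2⟩ := exists_two hy hx0A (PL.mem (GG.pl (DD_le_GG (hN hn))) hx0A)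
    (A.neg_mem hMA) hMA hx0 (show -M < M by linarith)
  set m := h * n * h⁻¹ with hm
  have hmN : m ∈ N := hc n hn h hh
  have hmPL : m ∈ PL p A := GG.pl (DD_le_GG (hN hmN))
  have hm1 : m (-M) = M := by
    rw [hm, H.mul_apply, H.mul_apply, H.inv_eq h h1, h2]
  have hs := Supp_conj ((Supp _ _ _ _).inv_mem ha2) hmPL
  rw [hm1] at hs
  have hcomm : Commute (m * a⁻¹ * m⁻¹) b := by
    refine H.commute_of_disjoint fun x => ?_
    rcases le_total x M with hx | hx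
    · exact Or.inl (hs.2.1 x hx)
    · exact Or.inr (hb2.2.2 x hx)
  have hz : a * (m * a⁻¹ * m⁻¹) ∈ N := by
    have := N.mul_mem (hc m hmN a ha2.1) (N.inv_mem hmN)
    have e : a * (m * a⁻¹ * m⁻¹) = a * m * a⁻¹ * m⁻¹ := by group
    rwa [e]
  have hz2 := N.mul_mem hz (hc _ (N.inv_mem hz) b hb2.1)
  have e : a * (m * a⁻¹ * m⁻¹) * (b * (a * (m * a⁻¹ * m⁻¹))⁻¹ * b⁻¹) = ⁅a, b⁆ := by
    rw [commutatorElement_def]
    calc a * (m * a⁻¹ * m⁻¹) * (b * (a * (m * a⁻¹ * m⁻¹))⁻¹ * b⁻¹)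
        = a * ((m * a⁻¹ * m⁻¹) * b) * (m * a⁻¹ * m⁻¹)⁻¹ * a⁻¹ * b⁻¹ := by group
      _ = a * (b * (m * a⁻¹ * m⁻¹)) * (m * a⁻¹ * m⁻¹)⁻¹ * a⁻¹ * b⁻¹ := by rw [hcomm.eq]
      _ = a * b * a⁻¹ * b⁻¹ := by group
  rwa [e] at hz2

theorem DD_exists_comm {w : H} (hw : w ∈ DD p A) :
    ∃ M : ℝ, 0 < M ∧ w ∈ ⁅Supp p A (-M) M, Supp p A (-M) M⁆ := by
  have mono : ∀ {M N : ℝ}, M ≤ N →
      ⁅Supp p A (-M) M, Supp p A (-M) M⁆ ≤ ⁅Supp p A (-N) N, Supp p A (-N) N⁆ :=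
    fun h => Subgroup.commutator_mono (Supp_mono (by linarith) h) (Supp_mono (by linarith) h)
  let K : Subgroup H :=
    { carrier := {w | ∃ M : ℝ, 0 < M ∧ w ∈ ⁅Supp p A (-M) M, Supp p A (-M) M⁆}
      mul_mem' := by
        rintro f g ⟨M, hM, hf⟩ ⟨N, hN, hg⟩
        exact ⟨M + N, by linarith, Subgroup.mul_mem _ (mono (by linarith) hf)
          (mono (by linarith) hg)⟩
      one_mem' := ⟨1, one_pos, Subgroup.one_mem _⟩
      inv_mem' := by
        rintro f ⟨M, hM, hf⟩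
        exact ⟨M, hM, Subgroup.inv_mem _ hf⟩ }
  have : DD p A ≤ K := by
    refine Subgroup.commutator_le.2 ?_
    rintro a ⟨M, hM, ha⟩ b ⟨N, hN, hb⟩
    exact ⟨M + N, by linarith, Subgroup.commutator_mem_commutator
      (Supp_mono (by linarith) (by linarith) ha) (Supp_mono (by linarith) (by linarith) hb)⟩
  exact this hw

/-- A map that is the identity on an interval and compresses a large interval. -/
theorem exists_compress (hy : Hyp p A) {a u v b : ℝ} (hau : a < u) (huv : u ≤ v) (hvb : v < b)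
    (M : ℝ) : ∃ k ∈ PL p A, (∀ x, u ≤ x → x ≤ v → k x = x) ∧ a < k (-M) ∧ k M < b := by
  obtain ⟨N, hNA, hN, -⟩ := hy.btw (lt_add_one (|M| + |u| + |v|))
  obtain ⟨a', ha', a1, a2⟩ := hy.btw hau
  obtain ⟨b', hb', b1, b2⟩ := hy.btw hvb
  have hp1 := neg_abs_le u
  have hq1 := le_abs_self v
  have hp0 := abs_nonneg u
  have hq0 := abs_nonneg v
  have hM0 := abs_nonneg M
  have hM1 := le_abs_self M
  obtain ⟨τ1, hτ1, t1⟩ := exists_transl hy (A.add_mem ha' hNA)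
  obtain ⟨τ2, hτ2, t2⟩ := exists_transl hy (A.sub_mem hb' hNA)
  obtain ⟨w, hw, u1, u2⟩ := exists_interp hy hτ1 (PL p A).one_mem (a := -N) (b := u) (by linarith)
    (by rw [t1, H.one_apply]; linarith)
  obtain ⟨k, hk, k1, k2⟩ := exists_interp hy hw hτ2 (a := v) (b := N) (by linarith)
    (by rw [t2, u2 v huv, H.one_apply]; linarith)
  have hka : k (-N) = a' := by rw [k1 _ (by linarith), u1 _ le_rfl, t1]; ring
  have hkb : k N = b' := by rw [k2 _ le_rfl, t2]; ring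
  refine ⟨k, hk, fun x hx hx' => by rw [k1 x hx', u2 x hx, H.one_apply], ?_, ?_⟩
  · exact (hka ▸ a1).trans_le ((H.le k).2 (by linarith))
  · exact ((H.le k).2 (by linarith)).trans_lt (hkb ▸ b2)

/-- An element of `DD` supported strictly inside an interval is a product of commutators of
elements supported in that interval. -/
theorem DD_mem_comm_Supp (hy : Hyp p A) {w : H} (hw : w ∈ DD p A) {a u v b : ℝ} (hau : a < u)
    (huv : u ≤ v) (hvb : v < b) (hs : w ∈ Supp p A u v) : w ∈ ⁅Supp p A a b, Supp p A a b⁆ := by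
  obtain ⟨M, hM, hwM⟩ := DD_exists_comm hw
  obtain ⟨k, hk, k1, k2, k3⟩ := exists_compress hy hau huv hvb M
  have e : k * w * k⁻¹ = w := by
    have := conj_eq_of_eqOn (d := k) (h := 1) hs k1
    simpa using this
  have hle : (Supp p A (-M) M).map (MulAut.conj k).toMonoidHom ≤ Supp p A a b := by
    rintro _ ⟨f, hf, rfl⟩
    exact Supp_mono k2.le k3.le (Supp_conj hf hk)
  have h2 : (MulAut.conj k).toMonoidHom w ∈ ⁅Supp p A a b, Supp p A a b⁆ := by
    have := Subgroup.mem_map_of_mem (MulAut.conj k).toMonoidHom hwM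
    rw [Subgroup.map_commutator] at this
    exact Subgroup.commutator_mono hle hle this
  have e2 : (MulAut.conj k).toMonoidHom w = w := e
  rwa [e2] at h2

end Pool.Agent.P.MP_23b8d1_al.T
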