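import Pool.Agent.P.MP_23b8d1_al.TDef
import Pool.Agent.P.MP_23b8d1_al.Cones

/-!
Interpolation in the group of piecewise linear maps with slopes in the powers of `p` and break
points in `A`.
-/

namespace Pool.Agent.P.MP_23b8d1_al.T

/-- the hypotheses on the slopes and the break points -/
structure Hyp (p : ℝ) (A : AddSubgroup ℝ) : Prop where
  lt : 1 < p
  ne : A ≠ ⊥
  mul : ∀ x, p * x ∈ A ↔ x ∈ A
  div : ∀ x ∈ A, x / (p - 1) ∈ A

variable {p : ℝ} {A : AddSubgroup ℝ}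

theorem Hyp.pos (hy : Hyp p A) : 0 < p := lt_trans one_pos hy.lt

theorem Hyp.zpow (hy : Hyp p A) (k : ℤ) (x : ℝ) : p ^ k * x ∈ A ↔ x ∈ A := by
  have h0 := hy.pos.ne'
  induction k using Int.induction_on with
  | zero => simp
  | succ n ih =>
    rw [zpow_add_one₀ h0, mul_comm _ p, mul_assoc, hy.mul]
    exact ih
  | pred n ih =>
    have e : p * (p ^ (-(n : ℤ) - 1) * x) = p ^ (-(n : ℤ)) * x := by
      rw [zpow_sub_one₀ h0]
      field_simp
    rw [← hy.mul, e]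
    exact ih

theorem Hyp.exists_pos (hy : Hyp p A) : ∃ x ∈ A, 0 < x := by
  obtain ⟨⟨x, hx⟩, h⟩ := (AddSubgroup.ne_bot_iff_exists_ne_zero).1 hy.ne
  have h' : x ≠ 0 := fun e => h (Subtype.ext e)
  rcases h'.lt_or_gt with h1 | h1
  · exact ⟨-x, A.neg_mem hx, by linarith⟩
  · exact ⟨x, hx, h1⟩

theorem Hyp.btw (hy : Hyp p A) {a b : ℝ} (h : a < b) : ∃ x ∈ A, a < x ∧ x < b := by
  have hd : Dense (A : Set ℝ) := by
    refine A.dense_of_not_isolated_zero fun ε hε => ?_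
    obtain ⟨x, hx, h0⟩ := hy.exists_pos
    obtain ⟨n, hn⟩ := pow_unbounded_of_one_lt (x / ε) hy.lt
    have hp : 0 < p ^ n := pow_pos hy.pos n
    refine ⟨p ^ (-(n : ℤ)) * x, (hy.zpow _ _).2 hx, ?_, ?_⟩
    · exact mul_pos (zpow_pos hy.pos _) h0
    · rw [zpow_neg, zpow_natCast, inv_mul_lt_iff₀ hp]
      rwa [div_lt_iff₀ hε] at hn
  obtain ⟨x, hx, h1⟩ := hd.exists_between h
  exact ⟨x, hx, h1.1, h1.2⟩

/-- `f` is affine with slope `p ^ k` on a right neighbourhood of `a`. -/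
def RG (p : ℝ) (f : H) (a : ℝ) (k : ℤ) : Prop :=
  ∃ c, a < c ∧ ∀ x, a ≤ x → x ≤ c → f x = f a + p ^ k * (x - a)

theorem RG.mul (hy : Hyp p A) {f g : H} {a : ℝ} {k l : ℤ} (hf : RG p f (g a) k)
    (hg : RG p g a l) : RG p (f * g) a (k + l) := by
  obtain ⟨c, hc, h1⟩ := hf
  obtain ⟨d, hd, h2⟩ := hg
  refine ⟨min d (g⁻¹ c), lt_min hd ((H.lt_inv g).2 hc), fun x hx hx' => ?_⟩
  rw [H.mul_apply, H.mul_apply,
    h1 (g x) ((H.le g).2 hx) ((H.le_inv g).1 (hx'.trans (min_le_right _ _))),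
    h2 x hx (hx'.trans (min_le_left _ _)), zpow_add₀ hy.pos.ne']
  ring

theorem RG.inv (hy : Hyp p A) {f : H} {a : ℝ} {k : ℤ} (hf : RG p f (f⁻¹ a) k) :
    RG p f⁻¹ a (-k) := by
  obtain ⟨c, hc, h1⟩ := hf
  refine ⟨f c, (H.inv_lt f).1 hc, fun x hx hx' => ?_⟩
  have := h1 (f⁻¹ x) ((H.le f⁻¹).2 hx) ((H.inv_le f).2 hx')
  rw [H.apply_inv, H.apply_inv] at this
  have h2 : p ^ k ≠ 0 := (zpow_pos hy.pos k).ne'
  rw [zpow_neg]
  field_simp
  linarith

theorem RG.one (a : ℝ) : RG p 1 a 0 := ⟨a + 1, by linarith, fun x _ _ => by simp⟩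

theorem RG.pow (hy : Hyp p A) {f : H} {a : ℝ} {k : ℤ} (hf : RG p f a k) (ha : f a = a) (n : ℕ) :
    RG p (f ^ n) a (n * k) := by
  induction n with
  | zero => simpa using RG.one a
  | succ n ih =>
    rw [pow_succ]
    have : RG p (f ^ n) (f a) (n * k) := by rwa [ha]
    have h2 := this.mul hy hf
    have e : ((n + 1 : ℕ) : ℤ) * k = n * k + k := by push_cast; ring
    rwa [e]

/-- the group of all piecewise linear maps -/
def PL (p : ℝ) (A : AddSubgroup ℝ) : Subgroup H where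
  carrier := {f | IsPL p A f}
  mul_mem' := IsPL.mul
  one_mem' := IsPL.one p A
  inv_mem' := IsPL.inv

theorem PL.mem {f : H} (hf : f ∈ PL p A) {x : ℝ} (hx : x ∈ A) : f x ∈ A := (hf.1 x).2 hx

theorem gapR (S : Finset ℝ) (a : ℝ) : ∃ c, a < c ∧ ∀ s ∈ S, s ≤ a ∨ c ≤ s := by
  by_cases h : (S.filter (a < ·)).Nonempty
  · obtain ⟨c, hc, h1⟩ := (S.filter (a < ·)).exists_min_image id h
    refine ⟨c, (Finset.mem_filter.1 hc).2, fun s hs => ?_⟩
    rcases le_or_gt s a with h2 | h2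
    · exact Or.inl h2
    · exact Or.inr (h1 s (Finset.mem_filter.2 ⟨hs, h2⟩))
  · refine ⟨a + 1, by linarith, fun s hs => Or.inl ?_⟩
    by_contra h2
    exact h ⟨s, Finset.mem_filter.2 ⟨hs, not_le.1 h2⟩⟩

theorem gapL (S : Finset ℝ) (a : ℝ) : ∃ c, c < a ∧ ∀ s ∈ S, s ≤ c ∨ a ≤ s := by
  classical
  obtain ⟨c, hc, h⟩ := gapR (S.image fun x => -x) (-a)
  refine ⟨-c, by linarith, fun s hs => ?_⟩
  rcases h _ (Finset.mem_image_of_mem _ hs) with h1 | h1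
  · right; linarith
  · left; linarith

theorem PL.rg {f : H} (hf : f ∈ PL p A) (a : ℝ) : ∃ k, RG p f a k := by
  obtain ⟨-, S, -, h⟩ := hf
  obtain ⟨c, hc, h1⟩ := gapR S a
  obtain ⟨k, hk⟩ := h a c hc.le h1
  exact ⟨k, c, hc, hk⟩

/-- the left end of the support lies in `A` -/
theorem PL.left_mem {f : H} (hf : f ∈ PL p A) {a c : ℝ} (hac : a < c)
    (f1 : ∀ x, x ≤ a → f x = x) (f2 : ∀ x, a < x → x ≤ c → x < f x) : a ∈ A := by
  obtain ⟨-, S, hS, h⟩ := hf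
  by_contra ha
  obtain ⟨d, hd, h1⟩ := gapR S a
  obtain ⟨e, he, h2⟩ := gapL S a
  obtain ⟨k, hk⟩ := h e d (he.trans hd).le fun s hs => by
    rcases h2 s hs with h3 | h3
    · exact Or.inl h3
    · rcases h1 s hs with h4 | h4
      · exact absurd (le_antisymm h4 h3 ▸ hS s hs) ha
      · exact Or.inr h4
  have h3 := hk a he.le hd.le
  rw [f1 a le_rfl, f1 e he.le] at h3
  have h4 : p ^ k = 1 := by
    have : (p ^ k - 1) * (a - e) = 0 := by linarith
    rcases mul_eq_zero.1 this with h5 | h5 <;> linarith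
  have h5 : a < min c d := lt_min hac hd
  have h6 := hk _ (he.trans h5).le (min_le_right _ _)
  have h7 := f2 _ h5 (min_le_left _ _)
  rw [f1 e he.le, h4] at h6
  linarith

theorem PL.ρ_mem {f : H} (hf : f ∈ PL p A) : ρ f ∈ PL p A := by
  classical
  obtain ⟨f1, S, hS, h⟩ := hf
  refine ⟨fun x => by rw [ρ_apply, neg_mem_iff, f1, neg_mem_iff], S.image fun x => -x,
    fun s hs => ?_, fun x y hxy h1 => ?_⟩
  · obtain ⟨u, hu, rfl⟩ := Finset.mem_image.1 hs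
    exact A.neg_mem (hS u hu)
  obtain ⟨k, hk⟩ := h (-y) (-x) (by linarith) fun s hs => by
    rcases h1 _ (Finset.mem_image_of_mem _ hs) with h2 | h2
    · right; linarith
    · left; linarith
  refine ⟨k, fun t h2 h3 => ?_⟩
  rw [ρ_apply, ρ_apply, hk (-t) (by linarith) (by linarith), hk (-x) (by linarith) le_rfl]
  ring

theorem PL.exists_glue {f g : H} (hf : f ∈ PL p A) (hg : g ∈ PL p A) {c : ℝ} (hcA : c ∈ A)
    (hc : f c = g c) : ∃ h ∈ PL p A, (∀ x, x ≤ c → h x = f x) ∧ (∀ x, c ≤ x → h x = g x) := by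
  classical
  obtain ⟨h, h1, h2⟩ := Pool.Agent.P.MP_23b8d1_al.exists_glue f g c hc
  obtain ⟨f1, S, hS, f2⟩ := hf
  obtain ⟨g1, U, hU, g2⟩ := hg
  refine ⟨h, ⟨fun x => ?_, insert c (S ∪ U), fun s hs => ?_, fun x y hxy h3 => ?_⟩, h1, h2⟩
  · rcases le_total x c with hx | hx
    · rw [h1 x hx, f1]
    · rw [h2 x hx, g1]
  · rcases Finset.mem_insert.1 hs with rfl | hs
    · exact hcA
    · rcases Finset.mem_union.1 hs with hs | hs
      · exact hS s hs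
      · exact hU s hs
  rcases h3 c (Finset.mem_insert_self _ _) with h4 | h4
  · obtain ⟨k, hk⟩ := g2 x y hxy fun s hs =>
      h3 s (Finset.mem_insert_of_mem (Finset.mem_union_right _ hs))
    exact ⟨k, fun t h5 h6 => by rw [h2 t (h4.trans h5), h2 x h4, hk t h5 h6]⟩
  · obtain ⟨k, hk⟩ := f2 x y hxy fun s hs =>
      h3 s (Finset.mem_insert_of_mem (Finset.mem_union_left _ hs))
    exact ⟨k, fun t h5 h6 => by rw [h1 t (h6.trans h4), h1 x (hxy.trans h4), hk t h5 h6]⟩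

theorem exists_aff (hy : Hyp p A) (k : ℤ) {b : ℝ} (hb : b ∈ A) :
    ∃ f ∈ PL p A, ∀ x, f x = p ^ k * x + b := by
  have hpos : (0 : ℝ) < p ^ k := zpow_pos hy.pos k
  have hm : StrictMono (fun x : ℝ => p ^ k * x + b) := fun x y hxy => by
    have := mul_lt_mul_of_pos_left hxy hpos
    simpa using this
  have hs : Function.Surjective (fun x : ℝ => p ^ k * x + b) := fun y =>
    ⟨(y - b) / p ^ k, by field_simp; ring⟩
  refine ⟨hm.orderIsoOfSurjective _ hs, ⟨fun x => ?_, ∅, by simp, fun x y _ _ =>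
    ⟨k, fun t _ _ => ?_⟩⟩, fun x => rfl⟩
  · change p ^ k * x + b ∈ A ↔ _
    rw [A.add_mem_cancel_right hb, hy.zpow]
  · change p ^ k * t + b = p ^ k * x + b + _
    ring

theorem exists_transl (hy : Hyp p A) {b : ℝ} (hb : b ∈ A) : ∃ f ∈ PL p A, ∀ x, f x = x + b := by
  simpa using exists_aff hy 0 hb

/-- Two-point transitivity. -/
theorem exists_two (hy : Hyp p A) {a b a' b' : ℝ} (ha : a ∈ A) (hb : b ∈ A) (ha' : a' ∈ A)
    (hb' : b' ∈ A) (h : a < b) (h' : a' < b') : ∃ f ∈ PL p A, f a = a' ∧ f b = b' := by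
  have hd : 0 < b - a := sub_pos.2 h
  have hd' : 0 < b' - a' := sub_pos.2 h'
  have hp := hy.lt
  obtain ⟨n, hn1, hn2⟩ := exists_mem_Ico_zpow (div_pos hd' hd) hy.lt
  rw [le_div_iff₀ hd] at hn1
  rw [div_lt_iff₀ hd, zpow_add_one₀ hy.pos.ne'] at hn2
  have hs0 : 0 < p ^ n := zpow_pos hy.pos n
  set d := p ^ (-n) * ((b' - a' - p ^ n * (b - a)) / (p - 1)) with hdef
  have hdA : d ∈ A := (hy.zpow _ _).2 (hy.div _
    (A.sub_mem (A.sub_mem hb' ha') ((hy.zpow _ _).2 (A.sub_mem hb ha))))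
  have hp1 : 0 < p - 1 := by linarith
  have e : p ^ n * ((p - 1) * d) = b' - a' - p ^ n * (b - a) := by
    rw [hdef, zpow_neg]
    field_simp
  have d0 : 0 ≤ d := mul_nonneg (zpow_pos hy.pos _).le (div_nonneg (by linarith) hp1.le)
  have d1 : d ≤ b - a := by
    by_contra hc
    have := mul_lt_mul_of_pos_left (mul_lt_mul_of_pos_left (not_le.1 hc) hp1) hs0
    nlinarith
  obtain ⟨f, hf, f1⟩ := exists_aff hy (n + 1) (A.sub_mem ha' ((hy.zpow (n + 1) a).2 ha))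
  obtain ⟨g, hg, g1⟩ := exists_aff hy n (A.sub_mem hb' ((hy.zpow n b).2 hb))
  rw [zpow_add_one₀ hy.pos.ne'] at f1
  obtain ⟨m, hm, m1, m2⟩ := PL.exists_glue hf hg (A.add_mem ha hdA) (by
    rw [f1, g1]
    linarith)
  refine ⟨m, hm, ?_, ?_⟩
  · rw [m1 a (by linarith), f1]; ring
  · rw [m2 b (by linarith), g1]; ring

/-- Interpolation between two piecewise linear maps. -/
theorem exists_interp (hy : Hyp p A) {u v : H} (hu : u ∈ PL p A) (hv : v ∈ PL p A) {a b : ℝ}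
    (h : a < b) (h' : u a < v b) :
    ∃ f ∈ PL p A, (∀ x, x ≤ a → f x = u x) ∧ (∀ x, b ≤ x → f x = v x) := by
  obtain ⟨m, hm1, hm2⟩ := exists_between h'
  obtain ⟨c, hc1, hc2⟩ := exists_between h
  obtain ⟨a', ha', a1, a2⟩ := hy.btw (lt_min hc1 ((H.lt_inv u).2 hm1))
  obtain ⟨b', hb', b1, b2⟩ := hy.btw (max_lt hc2 ((H.inv_lt v).2 hm2))
  have hab : a' < b' := (a2.trans_le (min_le_left _ _)).trans ((le_max_left _ _).trans_lt b1)
  have hab' : u a' < v b' := ((H.lt_inv u).1 (a2.trans_le (min_le_right _ _))).trans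
    ((H.inv_lt v).1 ((le_max_right _ _).trans_lt b1))
  obtain ⟨w, hw, m1, m2⟩ := exists_two hy ha' hb' (PL.mem hu ha') (PL.mem hv hb') hab hab'
  obtain ⟨g, hg, g1, g2⟩ := PL.exists_glue hu hw ha' m1.symm
  obtain ⟨f, hf, f1, f2⟩ := PL.exists_glue hg hv hb' (by rw [g2 b' hab.le, m2])
  exact ⟨f, hf, fun x hx => by rw [f1 x (by linarith), g1 x (by linarith)],
    fun x hx => f2 x (by linarith)⟩

/-- Three-point transitivity. -/
theorem exists_three (hy : Hyp p A) {a b c a' b' c' : ℝ} (ha : a ∈ A) (hb : b ∈ A) (hc : c ∈ A)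
    (ha' : a' ∈ A) (hb' : b' ∈ A) (hc' : c' ∈ A) (h1 : a < b) (h2 : b < c) (h1' : a' < b')
    (h2' : b' < c') : ∃ f ∈ PL p A, f a = a' ∧ f b = b' ∧ f c = c' := by
  obtain ⟨u, hu, u1, u2⟩ := exists_two hy ha hb ha' hb' h1 h1'
  obtain ⟨v, hv, v1, v2⟩ := exists_two hy hb hc hb' hc' h2 h2'
  obtain ⟨f, hf, f1, f2⟩ := PL.exists_glue hu hv hb (by rw [u2, v1])
  exact ⟨f, hf, by rw [f1 a h1.le, u1], by rw [f1 b le_rfl, u2], by rw [f2 c h2.le, v2]⟩

end Pool.Agent.P.MP_23b8d1_al.T
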